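import Pool.Agent.MP_3ee8cb_gt.D3NB.Bi
import Pool.Agent.MP_3ee8cb_gt.D3NP.Spec

/-! The moving front as a map of the punctured space, and the time derivative of `det A'`. -/

namespace Pool.Agent.MP_3ee8cb_gt.D3NB

open Set D3GB D3GB.RP2 Filter Topology
open Pool.Agent.MP_3ee8cb_gt.D3 (MF)
open D3NP (At At2)
open scoped RealInnerProductSpace

noncomputable section

/-- The point `exp t • p` goes to the front at time `t`. -/
def Ph (m : MF) (σ : V → V × V) (a : V) : V × V := m.Z (Real.log ‖a‖) (σ (‖a‖⁻¹ • a))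

/-- The signed area element at time `t`. -/
def dlt (m : MF) (σ : V → V × V) (t : ℝ) (p : V) : ℝ :=
  (At m σ t p + (innerSL ℝ p).smulRight (m.Z t (σ p)).2).det

/-- Minus the curvature of the plane orthogonal to a unit vector. -/
def kp (m : MF) (z : V × V) : ℝ := ⟪z.2, m.S z.1 (XX m z.1 z.2)⟫ / (m.S z.1).det

variable {m : MF} {σ : V → V × V}

theorem nexp {p : V} (hp : ‖p‖ = 1) (t : ℝ) : ‖Real.exp t • p‖ = Real.exp t := by
  rw [norm_smul, hp, mul_one, Real.norm_of_nonneg (Real.exp_pos t).le]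

theorem uexp {p : V} (hp : ‖p‖ = 1) (t : ℝ) : ‖Real.exp t • p‖⁻¹ • Real.exp t • p = p := by
  rw [nexp hp, smul_smul, inv_mul_cancel₀ (Real.exp_pos t).ne', one_smul]

theorem Ph_exp {p : V} (hp : ‖p‖ = 1) (t : ℝ) : Ph m σ (Real.exp t • p) = m.Z t (σ p) := by
  rw [Ph, uexp hp, nexp hp, Real.log_exp]

theorem polar {a : V} (ha : a ≠ 0) : ‖‖a‖⁻¹ • a‖ = 1 ∧
    a = Real.exp (Real.log ‖a‖) • ‖a‖⁻¹ • a := by
  have h := norm_pos_iff.2 ha
  refine ⟨by rw [norm_smul, norm_inv, norm_norm, inv_mul_cancel₀ h.ne'], ?_⟩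
  rw [Real.exp_log h, smul_smul, mul_inv_cancel₀ h.ne', one_smul]

theorem ne_of_unit {p : V} (hp : ‖p‖ = 1) : p ≠ 0 := fun h => by simp [h] at hp

theorem Ph_c1 (hm : m.OK) (hσ : m.Front σ) {a : V} (ha : a ≠ 0) :
    ContDiffAt ℝ 1 (Ph m σ) a := by
  have hn : ContDiffAt ℝ 1 (fun x : V => ‖x‖) a := contDiffAt_norm ℝ ha
  have h0 := (norm_pos_iff.2 ha).ne'
  have hu : ContDiffAt ℝ 1 (fun x : V => ‖x‖⁻¹ • x) a := (hn.inv h0).smul contDiffAt_id
  have hs : ContDiffAt ℝ 1 σ (‖a‖⁻¹ • a) :=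
    hσ.c1.contDiffAt (isOpen_ne.mem_nhds (ne_of_unit (polar ha).1))
  have h1 : ContDiffAt ℝ 1 (fun x : V => σ (‖x‖⁻¹ • x)) a :=
    ContDiffAt.comp (f := fun x : V => ‖x‖⁻¹ • x) a hs hu
  exact hm.cZ.contDiffAt.comp a ((hn.log h0).prodMk h1)

theorem dsig (hσ : m.Front σ) {p : V} (hp : p ≠ 0) : DifferentiableAt ℝ σ p :=
  (hσ.c1.contDiffAt (isOpen_ne.mem_nhds hp)).differentiableAt one_ne_zero

theorem dZt (hm : m.OK) (t : ℝ) (z : V × V) : DifferentiableAt ℝ (m.Z t) z :=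
  (hm.cZ.differentiable one_ne_zero (t, z)).comp z
    ((differentiableAt_const t).prodMk differentiableAt_id)

/-- The derivative of the flow in both variables. -/
theorem dZ2 (hm : m.OK) (t : ℝ) (z : V × V) (s : ℝ) (ξ : V × V) :
    fderiv ℝ (fun q : ℝ × V × V => m.Z q.1 q.2) (t, z) (s, ξ) =
      s • m.vf (m.Z t z) + fderiv ℝ (m.Z t) z ξ := by
  have d := (hm.cZ.differentiable one_ne_zero (t, z)).hasFDerivAt
  have h0 : HasDerivAt (fun s : ℝ => (s, z)) ((1 : ℝ), (0 : V × V)) t :=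
    (hasDerivAt_id t).prodMk (hasDerivAt_const t z)
  have h1 := (HasFDerivAt.comp_hasDerivAt (f := fun s : ℝ => (s, z)) t d h0).unique (hm.ode z t)
  have h2 : fderiv ℝ (m.Z t) z = _ :=
    (d.comp z ((hasFDerivAt_const t z).prodMk (hasFDerivAt_id z))).fderiv
  have e : ((s, ξ) : ℝ × V × V) = s • ((1 : ℝ), (0 : V × V)) + (0, ξ) := by simp
  rw [e, map_add, map_smul, h1, h2]
  rfl

theorem dnorm' {a : V} (ha : a ≠ 0) :
    HasFDerivAt (fun x : V => ‖x‖) (innerSL ℝ (‖a‖⁻¹ • a)) a := by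
  have h0 := norm_pos_iff.2 ha
  have h1 := (hasStrictFDerivAt_norm_sq a).hasFDerivAt.sqrt (pow_pos h0 2).ne'
  have e : (fun x : V => √(‖x‖ ^ 2)) = fun x => ‖x‖ := funext fun x => Real.sqrt_sq (norm_nonneg x)
  rw [e, Real.sqrt_sq h0.le] at h1
  refine h1.congr_fderiv ?_
  ext e
  simp
  field_simp

theorem dPh (hm : m.OK) (hσ : m.Front σ) {p : V} (hp : ‖p‖ = 1) (t : ℝ) (e : V) :
    fderiv ℝ (Ph m σ) (Real.exp t • p) e = (Real.exp t)⁻¹ • (⟪p, e⟫ • m.vf (m.Z t (σ p)) +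
      fderiv ℝ (m.Z t) (σ p) (fderiv ℝ σ p (e - ⟪p, e⟫ • p))) := by
  have r0 := Real.exp_pos t
  have ha : Real.exp t • p ≠ 0 := smul_ne_zero r0.ne' (ne_of_unit hp)
  have hn := dnorm' ha
  rw [uexp hp] at hn
  have h0 := (norm_pos_iff.2 ha).ne'
  have hu := ((hasFDerivAt_inv h0).comp _ hn).fun_smul (hasFDerivAt_id (Real.exp t • p))
  have hs : HasFDerivAt σ (fderiv ℝ σ p) (‖Real.exp t • p‖⁻¹ • Real.exp t • p) := by
    rw [uexp hp]
    exact (dsig hσ (ne_of_unit hp)).hasFDerivAt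
  have d : HasFDerivAt (fun q : ℝ × V × V => m.Z q.1 q.2) (fderiv ℝ (fun q : ℝ × V × V =>
      m.Z q.1 q.2) (t, σ p)) (Real.log ‖Real.exp t • p‖,
        σ (‖Real.exp t • p‖⁻¹ • Real.exp t • p)) := by
    rw [uexp hp, nexp hp, Real.log_exp]
    exact (hm.cZ.differentiable one_ne_zero _).hasFDerivAt
  have h3 : fderiv ℝ (Ph m σ) (Real.exp t • p) = _ :=
    (HasFDerivAt.comp (f := fun x : V => (Real.log ‖x‖, σ (‖x‖⁻¹ • x))) _ d ((hn.log h0).prodMk
      (HasFDerivAt.comp (f := fun x : V => ‖x‖⁻¹ • x) _ hs hu))).fderiv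
  have e1 : ∀ L : ℝ × V × V →L[ℝ] V × V, (Real.exp t)⁻¹ • L (⟪p, e⟫,
      fderiv ℝ σ p (e - ⟪p, e⟫ • p)) = L ((Real.exp t)⁻¹ * ⟪p, e⟫,
        fderiv ℝ σ p ((Real.exp t)⁻¹ • (e - ⟪p, e⟫ • p))) := fun L => by
    rw [← map_smul, map_smul (fderiv ℝ σ p)]
    rfl
  rw [h3, ← dZ2 hm, e1]
  simp only [ContinuousLinearMap.comp_apply, ContinuousLinearMap.prod_apply]
  congr 2
  · simp [nexp hp]
  · congr 1
    simp [nexp hp, smul_smul, sub_eq_add_neg]
    congr 1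
    field_simp

theorem hor_vf (hm : m.OK) (z : V × V) : m.hor z (m.vf z) = z.2 := hm.SR _ _

theorem ver_vf (z : V × V) : m.ver z (m.vf z) = 0 := by simp [MF.ver, MF.vf]

theorem hor_dPh (hm : m.OK) (hσ : m.Front σ) {p : V} (hp : ‖p‖ = 1) (t : ℝ) (e : V) :
    m.hor (m.Z t (σ p)) (fderiv ℝ (Ph m σ) (Real.exp t • p) e) =
      (Real.exp t)⁻¹ • (At m σ t p e + ⟪p, e⟫ • (m.Z t (σ p)).2) := by
  rw [dPh hm hσ hp, map_smul, map_add, map_smul, hor_vf hm, add_comm]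
  rfl

theorem ver_dPh (hm : m.OK) (hσ : m.Front σ) {p : V} (hp : ‖p‖ = 1) (t : ℝ) (e : V) :
    m.ver (m.Z t (σ p)) (fderiv ℝ (Ph m σ) (Real.exp t • p) e) =
      (Real.exp t)⁻¹ • At2 m σ t p (e - ⟪p, e⟫ • p) := by
  rw [dPh hm hσ hp, map_smul, map_add, map_smul, ver_vf, smul_zero, zero_add]
  rfl

theorem dPsi (hm : m.OK) (hσ : m.Front σ) {a : V} (ha : a ≠ 0) :
    fderiv ℝ (fun x => (Ph m σ x).1) a =
      (ContinuousLinearMap.fst ℝ V V).comp (fderiv ℝ (Ph m σ) a) :=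
  ((Ph_c1 hm hσ ha).differentiableAt one_ne_zero).hasFDerivAt.fst.fderiv

/-- The Jacobian of the foot map. -/
theorem det_Psi (hm : m.OK) (hσ : m.Front σ) {p : V} (hp : ‖p‖ = 1) (t : ℝ) :
    (m.S (m.Z t (σ p)).1).det * (fderiv ℝ (fun x => (Ph m σ x).1) (Real.exp t • p)).det =
      (Real.exp t)⁻¹ ^ 3 * dlt m σ t p := by
  have ha : Real.exp t • p ≠ 0 := smul_ne_zero (Real.exp_pos t).ne' (ne_of_unit hp)
  rw [dPsi hm hσ ha, mul_comm, rDET3 (ContinuousLinearMap.comp _ _), det_basis, dlt, rDET3]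
  have h := hor_dPh hm hσ hp t
  simp only [MF.hor, ContinuousLinearMap.comp_apply] at h
  simp only [ContinuousLinearMap.comp_apply, h, add_apply, ContinuousLinearMap.smulRight_apply,
    innerSL_apply_apply, trip, PiLp.smul_apply, smul_eq_mul]
  ring

theorem dsig_rad (hσ : m.Front σ) {p : V} (hp : p ≠ 0) : fderiv ℝ σ p p = (0, (σ p).2) := by
  have h1 : HasDerivAt (fun r : ℝ => r • p) p 1 := by
    simpa using (hasDerivAt_id (1 : ℝ)).smul_const p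
  have h2 : HasFDerivAt σ (fderiv ℝ σ p) ((1 : ℝ) • p) := by
    rw [one_smul]
    exact (dsig hσ hp).hasFDerivAt
  have h3 : HasDerivAt (fun r : ℝ => ((σ p).1, r • (σ p).2)) (0, (σ p).2) 1 := by
    simpa using (hasDerivAt_const (1 : ℝ) (σ p).1).prodMk
      ((hasDerivAt_id (1 : ℝ)).smul_const (σ p).2)
  refine (h2.comp_hasDerivAt 1 h1).unique (h3.congr_of_eventuallyEq ?_)
  filter_upwards [isOpen_ne.mem_nhds (one_ne_zero (α := ℝ))] with r hr
  exact hσ.hom r p hr hp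

theorem At2_rad (hm : m.OK) (hj : m.Jac) (hσ : m.Front σ) {p : V} (hp : p ≠ 0) (t : ℝ) :
    At2 m σ t p p = (m.Z t (σ p)).2 := by
  have h1 : HasDerivAt (fun r : ℝ => ((σ p).1, r • (σ p).2)) (0, (σ p).2) 1 := by
    simpa using (hasDerivAt_const (1 : ℝ) (σ p).1).prodMk
      ((hasDerivAt_id (1 : ℝ)).smul_const (σ p).2)
  have h2 : HasFDerivAt (m.Z t) (fderiv ℝ (m.Z t) (σ p)) ((σ p).1, (1 : ℝ) • (σ p).2) := by
    rw [one_smul]
    exact (dZt hm t _).hasFDerivAt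
  have h3 : HasDerivAt (fun r : ℝ => m.Z (r * t) (σ p)) (t • m.vf (m.Z t (σ p))) 1 := by
    have o := hm.ode (σ p) (1 * t)
    have := o.scomp (1 : ℝ) ((hasDerivAt_id (1 : ℝ)).mul_const t)
    simpa [Function.comp_def] using this
  have h4 := HasDerivAt.prodMk h3.fst ((hasDerivAt_id (1 : ℝ)).smul h3.snd)
  have h5 := (h2.comp_hasDerivAt 1 h1).unique (HasDerivAt.congr_of_eventuallyEq h4
    (Eventually.of_forall fun r => hj.scale t r (σ p).1 (σ p).2))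
  change m.ver _ (fderiv ℝ (m.Z t) (σ p) (fderiv ℝ σ p p)) = _
  rw [dsig_rad hσ hp, h5]
  simp [MF.ver, MF.vf]

theorem w_unit (hj : m.Jac) (hσ : m.Front σ) {p : V} (hp : ‖p‖ = 1) (t : ℝ) :
    ‖(m.Z t (σ p)).2‖ = 1 := by rw [hj.norm, hσ.norm p (ne_of_unit hp), hp]

theorem At2_perp (hm : m.OK) (hj : m.Jac) (hσ : m.Front σ) {p : V} (hp : ‖p‖ = 1) (t : ℝ)
    (e : V) : ⟪(m.Z t (σ p)).2, At2 m σ t p e⟫ = ⟪p, e⟫ := by
  have p0 := ne_of_unit hp
  have d := ((dZt hm t _).hasFDerivAt.comp p (dsig hσ p0).hasFDerivAt).snd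
  have h1 := d.inner ℝ d
  have h2 := (hasFDerivAt_id (𝕜 := ℝ) p).inner ℝ (hasFDerivAt_id p)
  have h3 := congrArg (fun L : V →L[ℝ] ℝ => L e) (h1.unique (h2.congr_of_eventuallyEq (by
    filter_upwards [isOpen_ne.mem_nhds p0] with x hx
    simp only [Function.comp, id, real_inner_self_eq_norm_sq, hj.norm, hσ.norm x hx])))
  have s := hm.skew (m.Z t (σ p)).1 (fderiv ℝ (m.Z t) (σ p) (fderiv ℝ σ p e)).1
    (m.Z t (σ p)).2 (m.Z t (σ p)).2
  simp only [ContinuousLinearMap.comp_apply, ContinuousLinearMap.prod_apply, fderivInnerCLM_apply,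
    Function.comp, id, ContinuousLinearMap.id_apply, ContinuousLinearMap.coe_snd'] at h3
  rw [real_inner_comm] at s
  rw [real_inner_comm (m.Z t (σ p)).2, real_inner_comm p] at h3
  simp only [At2, MF.ver, ContinuousLinearMap.comp_apply, add_apply, inner_add_right,
    ContinuousLinearMap.coe_snd', ContinuousLinearMap.coe_fst', ContinuousLinearMap.flip_apply]
  linarith

theorem trip_der {a b c : ℝ → V} {a' b' c' : V} {t : ℝ} (ha : HasDerivAt a a' t)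
    (hb : HasDerivAt b b' t) (hc : HasDerivAt c c' t) :
    HasDerivAt (fun s => trip (a s) (b s) (c s))
      (trip a' (b t) (c t) + trip (a t) b' (c t) + trip (a t) (b t) c') t := by
  have h := ha.inner ℝ ((crL.hasFDerivAt.comp_hasDerivAt t hb).clm_apply hc)
  simp only [Function.comp, crL_app, in_cr] at h
  refine h.congr_deriv ?_
  simp only [inner3, trip, cr0, cr1, cr2, PiLp.add_apply]
  ring

theorem exists_perp {p : V} (hp : ‖p‖ = 1) :
    ∃ e f, ⟪p, e⟫ = 0 ∧ ⟪p, f⟫ = 0 ∧ trip p e f = 1 := by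
  obtain ⟨e, f, h⟩ := exists_cr p
  have n : ⟪p, p⟫ = 1 := by rw [real_inner_self_eq_norm_sq, hp, one_pow]
  refine ⟨e, f, ?_, ?_, by rw [← in_cr, h, n]⟩ <;>
  · rw [← h]
    simp only [inner3, cr0, cr1, cr2]
    ring

/-- The time derivative of `det A'` is the divergence of the curvature form. -/
theorem det_At2_der (hm : m.OK) (hj : m.Jac) (h2 : ContDiff ℝ 2 m.om) (hσ : m.Front σ) {p : V}
    (hp : ‖p‖ = 1) (t : ℝ) : HasDerivAt (fun s => (At2 m σ s p).det) (Real.exp t ^ 3 *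
      dv (fun x => (Ph m σ x).1) (fun x => XX m (Ph m σ x).1 (Ph m σ x).2) (Real.exp t • p)) t := by
  have p0 := ne_of_unit hp
  have r0 := (Real.exp_pos t).ne'
  have ha : Real.exp t • p ≠ 0 := smul_ne_zero r0 p0
  obtain ⟨e, f, he, hf, h1⟩ := exists_perp hp
  have n : ⟪p, p⟫ = 1 := by rw [real_inner_self_eq_norm_sq, hp, one_pow]
  have e1 : (fun s => (At2 m σ s p).det) = fun s => trip (m.Z s (σ p)).2
      (m.J' (σ p) (fderiv ℝ σ p e) s) (m.J' (σ p) (fderiv ℝ σ p f) s) := funext fun s => by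
    rw [← one_mul (At2 m σ s p).det, ← h1, det_basis, At2_rad hm hj hσ p0]
    rfl
  rw [e1]
  refine (trip_der (hm.ode (σ p) t).snd (hj.d2 _ _ t) (hj.d2 _ _ t)).congr_deriv ?_
  rw [dv_XX hm h2 ((Ph_c1 hm hσ ha).differentiableAt one_ne_zero), ← one_mul (mix _ _), ← h1,
    mix_basis, Ph_exp hp]
  have hh : ∀ x, (fderiv ℝ (Ph m σ) (Real.exp t • p) x).1 = m.R (m.Z t (σ p)).1
      ((Real.exp t)⁻¹ • (At m σ t p x + ⟪p, x⟫ • (m.Z t (σ p)).2)) := fun x => by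
    rw [← hor_dPh hm hσ hp]
    exact (hm.RS _ _).symm
  have Ap : At m σ t p p = 0 := by
    rw [D3NP.At_apply, n, one_smul, sub_self, map_zero, MF.J, map_zero, map_zero]
  have Ae : ∀ x, ⟪p, x⟫ = 0 → At m σ t p x = m.J (σ p) (fderiv ℝ σ p x) t := fun x hx => by
    rw [D3NP.At_apply, hx, zero_smul, sub_zero]
  have pe := At2_perp hm hj hσ hp t e
  have pf := At2_perp hm hj hσ hp t f
  have wn : ⟪(m.Z t (σ p)).2, (m.Z t (σ p)).2⟫ = 1 := by
    rw [real_inner_self_eq_norm_sq, w_unit hj hσ hp, one_pow]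
  simp only [ContinuousLinearMap.comp_apply, ContinuousLinearMap.coe_fst', hh, ver_dPh hm hσ hp,
    n, he, hf, Ap, Ae e he, Ae f hf, one_smul, zero_smul, sub_self, sub_zero, add_zero, zero_add,
    map_zero, smul_zero, map_smul, D3NP.At2_apply] at pe pf ⊢
  have ts : ∀ (c : ℝ) (x y z : V), trip (c • x) (c • y) (c • z) = c ^ 3 * trip x y z :=
    fun c x y z => by
      simp only [trip, PiLp.smul_apply, smul_eq_mul]
      ring
  have t0 : ∀ y z : V, trip 0 y z = 0 := fun y z => by simp [trip]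
  have an : ∀ y u v : V, aO m y u v = -aO m y v u := fun y u v => by
    rw [aO_eq hm, aO_eq hm]
    refine ext3 ?_ ?_ ?_ <;> simp only [PiLp.add_apply, PiLp.sub_apply, PiLp.neg_apply, cr0, cr1,
      cr2] <;> ring
  rw [ts, ts, t0, XX_trip hm, XX_trip hm, aO_K hj, aO_K hj,
    an _ (m.R _ (m.Z t (σ p)).2) (m.R _ (m.J (σ p) (fderiv ℝ σ p e) t))]
  simp only [MF.w, MF.vf, om_cr hm]
  generalize aO m _ (m.R _ (m.J (σ p) (fderiv ℝ σ p e) t)) _ = k₁
  generalize aO m _ (m.R _ (m.J (σ p) (fderiv ℝ σ p f) t)) _ = k₂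
  generalize m.J' (σ p) (fderiv ℝ σ p e) t = x at pe ⊢
  generalize m.J' (σ p) (fderiv ℝ σ p f) t = y at pf ⊢
  generalize xi m _ _ = o
  generalize (m.Z t (σ p)).2 = w at pe pf wn ⊢
  have r1 : Real.exp t ^ 3 * (Real.exp t)⁻¹ ^ 3 = 1 := by field_simp
  simp only [inner3, trip, cr0, cr1, cr2, PiLp.sub_apply, PiLp.neg_apply] at pe pf wn ⊢
  linear_combination (k₂ 0 * x 0 + k₂ 1 * x 1 + k₂ 2 * x 2 -
      (k₁ 0 * y 0 + k₁ 1 * y 1 + k₁ 2 * y 2)) * (wn - r1) +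
    (k₁ 0 * w 0 + k₁ 1 * w 1 + k₁ 2 * w 2) * pf - (k₂ 0 * w 0 + k₂ 1 * w 1 + k₂ 2 * w 2) * pe

/-- The flux of the curvature form through the front at time `t`. -/
theorem flux (hm : m.OK) (hσ : m.Front σ) {p : V} (hp : ‖p‖ = 1) (t : ℝ) :
    ⟪ContinuousLinearMap.adjoint (m.S (m.Z t (σ p)).1) (m.Z t (σ p)).2,
      XX m (m.Z t (σ p)).1 (m.Z t (σ p)).2⟫ *
      (fderiv ℝ (fun x => (Ph m σ x).1) (Real.exp t • p)).det =
      (Real.exp t)⁻¹ ^ 3 * (kp m (m.Z t (σ p)) * dlt m σ t p) := by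
  have h := det_Psi hm hσ hp t
  have d := detS_ne hm (m.Z t (σ p)).1
  rw [ContinuousLinearMap.adjoint_inner_left, mul_left_comm, ← h, kp]
  field_simp

end

end Pool.Agent.MP_3ee8cb_gt.D3NB
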