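import Pool.Agent.MP_3ee8cb_gt.D3NB.Gbt
import Pool.Agent.MP_3ee8cb_gt.D3NP.GSpec

/-! The fibre inequality from the abstract statements. -/

namespace Pool.Agent.MP_3ee8cb_gt.D3NB

open Set D3GB D3GB.RP2 Filter Topology MeasureTheory Metric
open Pool.Agent.MP_3ee8cb_gt.D3 (MF sph Wid OnF)
open D3NP (At At2 fx Fam Wg Stp Rs)
open scoped RealInnerProductSpace Manifold

noncomputable section

/-- The foot of the moving front. -/
def Cf (m : MF) (σ : V → V × V) (x : V) : V := (Ph m σ x).1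

/-- The conormal of the moving front. -/
def th (m : MF) (σ : V → V × V) (x : V) : V :=
  ContinuousLinearMap.adjoint (m.S (Ph m σ x).1) (Ph m σ x).2

/-- The distance functions of a far front form a family. -/
def SFAM : Prop := OnF fun m lg σ T => Wid m lg σ T → ∀ ε δ : ℝ, (ε = 1 ∨ ε = -1) →
  (δ = 1 ∨ δ = -1) → (∀ p t, ‖p‖ = 1 → 0 < ε * (At2 m σ t p).det) →
  (∀ y, 0 < δ * (m.S y).det) → ∃ O β, Fam O (Cf m σ) (th m σ) β (ε * δ) T

theorem detS_sign {m : MF} (hm : m.OK) :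
    ∃ δ : ℝ, (δ = 1 ∨ δ = -1) ∧ ∀ y, 0 < δ * (m.S y).det := by
  have hc : Continuous fun y => (m.S y).det :=
    ContinuousLinearMap.continuous_det.comp hm.cS.continuous
  by_cases hpos : ∀ y, 0 < (m.S y).det
  · exact ⟨1, Or.inl rfl, fun y => by simpa using hpos y⟩
  · push Not at hpos
    obtain ⟨b, hb⟩ := hpos
    refine ⟨-1, Or.inr rfl, fun a => ?_⟩
    by_contra hcon
    obtain ⟨c, hc2⟩ := intermediate_value_univ b a hc
      (show (0 : ℝ) ∈ Icc _ _ from ⟨hb, by linarith⟩)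
    exact detS_ne hm c hc2

theorem exists_cut {O K : Set V} (hO : IsOpen O) (hK : IsCompact K) (h : K ⊆ O) :
    ∃ χ, Wg O χ ∧ ∀ z ∈ K, ∀ᶠ y in 𝓝 z, χ y = 1 := by
  obtain ⟨L, cL, h1, h2⟩ := exists_compact_between hK hO h
  obtain ⟨f, f1, f0, f2⟩ := exists_contMDiffMap_one_nhds_of_subset_interior (n := 1) 𝓘(ℝ, V)
    hK.isClosed h1
  have s : tsupport f ⊆ L := closure_minimal (fun x hx => by
    by_contra hx'
    exact hx (f0 x hx')) cL.isClosed
  exact ⟨f, ⟨f.contMDiff.contDiff, fun z => (f2 z).1,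
    cL.of_isClosed_subset (isClosed_tsupport _) s, s.trans h2⟩,
      fun z hz => f1.filter_mono (nhds_le_nhdsSet hz)⟩

theorem exists_step (T : ℝ) : ∃ ψ, Stp ψ T :=
  ⟨fun t => Real.smoothTransition (t + T + 1), (Real.smoothTransition.contDiff (n := 1)).comp
    ((contDiff_id.add contDiff_const).add contDiff_const),
    fun _ _ h => Real.smoothTransition.monotone (by linarith),
    fun _ h => Real.smoothTransition.zero_of_nonpos (by linarith),
    fun _ h => Real.smoothTransition.one_of_one_le (by linarith)⟩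

theorem dv_const (C f : V → V) (c : ℝ) (a : V) :
    D3NP.dv C (fun b => c • f b) a = c * D3NP.dv C f a := by
  have e : fderiv ℝ (fun b => c • f b) a = c • fderiv ℝ f a := congrFun (fderiv_const_smul_field c) a
  simp only [D3NP.dv, e, trip, smul_apply, PiLp.smul_apply, smul_eq_mul]
  ring

theorem fx_const (C f : V → V) (c : ℝ) (a : V) : fx C (fun b => c • f b) a = c * fx C f a := by
  simp only [fx, ev, trip, PiLp.smul_apply, smul_eq_mul]
  ring

/-- The fibre inequality; only nonpositive curvature is used. -/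
theorem fib0_of (fam : SFAM) (pos : D3NP.SPOS) (cut : D3NP.SCUT) (rad : D3NP.SRAD)
    (ray : D3NP.SRAY) (bor : D3NP.SBOR) (dvp : D3NP.SDV) :
    OnF fun m lg σ T => ContDiff ℝ 2 m.om → Wid m lg σ T → ∀ g : V → ℝ,
      ContinuousOn g {a | ‖a‖ = 1} → (∀ a t, ‖a‖ = 1 → |t| ≤ T → g a ≤ |(At2 m σ t a).det|) →
        sph g ≤ sph fun _ => 1 := by
  intro m lg σ T hm hj up0 had hσ good hT h2 wid g cg hg
  obtain ⟨ε, hε, sε⟩ := At2_sign hm hj hσ good
  obtain ⟨δ, hδ, sδ⟩ := detS_sign hm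
  obtain ⟨O, β, F⟩ := fam m lg σ T hm hj up0 had hσ good hT wid ε δ hε hδ sε sδ
  have dd : δ * δ = 1 := by rcases hδ with rfl | rfl <;> norm_num
  have ae : |ε| = 1 := by rcases hε with rfl | rfl <;> norm_num
  have cK : IsCompact {a : V | a ≠ 0 ∧ |Real.log ‖a‖| ≤ T + 1} := by
    refine ((isCompact_closedBall (0 : V) (Real.exp (T + 1))).diff
      (isOpen_ball (x := 0) (ε := Real.exp (-(T + 1))))).of_isClosed_subset ?_ fun a ha => ?_
    · have e : {a : V | a ≠ 0 ∧ |Real.log ‖a‖| ≤ T + 1} =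
          (fun a : V => ‖a‖) ⁻¹' Icc (Real.exp (-(T + 1))) (Real.exp (T + 1)) := by
        ext a
        constructor
        · rintro ⟨h0, h⟩
          have n := norm_pos_iff.2 h0
          exact ⟨(Real.le_log_iff_exp_le n).1 (abs_le.1 h).1,
            (Real.log_le_iff_le_exp n).1 (abs_le.1 h).2⟩
        · rintro ⟨h0, h⟩
          have n := (Real.exp_pos _).trans_le h0
          exact ⟨norm_pos_iff.1 n, abs_le.2 ⟨(Real.le_log_iff_exp_le n).2 h0,
            (Real.log_le_iff_le_exp n).2 h⟩⟩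
      rw [e]
      exact isClosed_Icc.preimage continuous_norm
    · have n := norm_pos_iff.2 ha.1
      exact ⟨mem_closedBall_zero_iff.2 ((Real.log_le_iff_le_exp n).1 (abs_le.1 ha.2).2),
        fun h => (mem_ball_zero_iff.1 h).not_ge ((Real.le_log_iff_exp_le n).1 (abs_le.1 ha.2).1)⟩
  obtain ⟨χ, W, h1⟩ := exists_cut F.op
    (cK.image_of_continuousOn (F.cC.continuousOn.mono fun _ h => h.1))
    (by rintro _ ⟨a, ha, rfl⟩; exact F.mid a ha.1 ha.2)
  obtain ⟨ψ, S⟩ := exists_step T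
  have cP : ContDiffOn ℝ 1 (Ph m σ) {a | a ≠ 0} := fun a ha => (Ph_c1 hm hσ ha).contDiffWithinAt
  have cf : ContDiffOn ℝ 1 (fun x => ε • XX m (Ph m σ x).1 (Ph m σ x).2) {a | a ≠ 0} :=
    (((XX_c1 hm h2).comp_contDiffOn cP.fst).clm_apply cP.snd).const_smul ε
  have p1 := pos O _ _ β _ T F (fun z => δ • GG m z) χ ((GG_c1 hm h2).const_smul δ)
    (fun z x y => by
      simp only [smul_apply, real_inner_smul_left, real_inner_smul_right, GG_symm hm hj])
    (fun z x => by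
      have a := GG_pos hm hj up0 z x
      have b := sδ z
      rw [zero_mul] at a
      rw [smul_apply, real_inner_smul_left]
      refine nonneg_of_mul_nonneg_right ?_ b
      have : δ * (m.S z).det * (δ * ⟪GG m z x, x⟫) = (m.S z).det * ⟪GG m z x, x⟫ := by
        linear_combination (m.S z).det * ⟪GG m z x, x⟫ * dd
      rwa [this]) W
  have p2 := cut O _ _ β _ T F _ χ ψ cf W (fun a h0 h => h1 _ ⟨a, ⟨h0, h⟩, rfl⟩) S
  have p3 : ∀ a, ε * δ * D3NP.dv (Cf m σ)
      (fun b => χ (Cf m σ b) • (δ • GG m (Cf m σ b)) (th m σ b)) a = D3NP.dv (Cf m σ)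
        (fun b => χ (Cf m σ b) • ε • XX m (Ph m σ b).1 (Ph m σ b).2) a := fun a => by
    rw [← dv_const]
    congr 1
    funext b
    rw [smul_apply, th, Cf, GG_flat hm, smul_comm, smul_smul (ε * δ), mul_assoc, dd, mul_one]
  simp only [p3] at p1
  rw [p2] at p1
  obtain ⟨c1, c2⟩ := dvp.cont _ _ F.cC cf
  refine rad _ _ _ g (fun p t => ε * (At2 m σ t p).det) ψ T _ hT (bor O _ _ β _ T F)
    (ray O _ _ β _ T F) c1 c2
    (continuousOn_const.mul ((cAt2 hm hσ).mono fun x hx => ne_of_unit hx)) cg S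
    (fun p t hp => ?_) (fun p t hp ht => ?_) (fun t => ?_) p1
  · refine ((det_At2_der hm hj h2 hσ hp t).const_mul ε).congr_deriv ?_
    rw [dv_const, show Real.exp (3 * t) = Real.exp t ^ 3 from Real.exp_nat_mul t 3,
      mul_left_comm]
    rfl
  · refine (hg p t hp ht).trans (le_of_eq ?_)
    rw [← abs_of_pos (sε p t hp), abs_mul, ae, one_mul]
  · refine le_trans ?_ (gbt m lg σ T hm hj up0 had hσ good hT wid t)
    simp only [fx_const, ← mul_sub, sph, integral_const_mul]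
    refine (le_abs_self _).trans (le_of_eq ?_)
    rw [abs_mul, ae, one_mul]
    rfl

theorem fib_of (fam : SFAM) (pos : D3NP.SPOS) (cut : D3NP.SCUT) (rad : D3NP.SRAD)
    (ray : D3NP.SRAY) (bor : D3NP.SBOR) (dvp : D3NP.SDV) {Reg : MF → Prop}
    (h : ∀ m, Reg m → ContDiff ℝ 2 m.om) : D3NP.SFIB Reg :=
  fun m lg σ T hm hj up0 had hσ good hT r wid _ _ _ =>
    fib0_of fam pos cut rad ray bor dvp m lg σ T hm hj up0 had hσ good hT (h m r) wid

theorem fam_of (sgn : D3NP.SSGN) (big : D3NP.SBIG) (g1 : D3NP.SG1) (g2 : D3NP.SG2)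
    (g3 : D3NP.SG3) (g4 : D3NP.SG4) (g5 : D3NP.SG5) : SFAM := by
  intro m lg σ T hm hj up0 had hσ good hT _ ε δ hε hδ sε sδ
  obtain ⟨s, sg⟩ := sgn m lg σ T hm hj up0 had hσ good hT ε hε sε
  have sg' : D3NP.Sg m σ T ε δ := ⟨hε, hδ, sε, sδ, sg.far⟩
  obtain ⟨ρ, L, B⟩ := big m lg σ T hm hj up0 had hσ good hT
  obtain ⟨a1, a2, a3, a4, a5, a6⟩ := g1 m lg σ T hm hj up0 had hσ good hT ρ L ε δ B sg'
  obtain ⟨b1, b2⟩ := g2 m lg σ T hm hj up0 had hσ good hT ρ L ε δ B sg'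
  obtain ⟨c1, c2, c3, c4⟩ := g4 m lg σ T hm hj up0 had hσ good hT ρ L ε δ B sg'
  refine ⟨_, _, isOpen_ball, convex_ball _ _, ?_, hT, a1, a2, a3, a4, a5, b1, b2,
    g3 m lg σ T hm hj up0 had hσ good hT ρ L ε δ B sg', c1, c2, c3, c4,
    g5 m lg σ T hm hj up0 had hσ good hT ρ L ε δ B sg', a6, fun a h0 h => ?_⟩
  · rcases hε with rfl | rfl <;> rcases hδ with rfl | rfl <;> norm_num
  · exact mem_ball_zero_iff.2 ((B.mid a h0 h).trans (by linarith))

theorem xFIB : D3NP.R_FIB :=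
  fun sgn big g1 g2 g3 g4 g5 _ _ dvp bor ray pos cut rad m lg σ T hm hj up0 had hσ good hT r =>
    fib0_of (fam_of sgn big g1 g2 g3 g4 g5) pos cut rad ray bor dvp m lg σ T hm hj up0 had hσ
      good hT r.com

/-- The same without the two rows that are not used. -/
theorem fib0 (sgn : D3NP.SSGN) (big : D3NP.SBIG) (g1 : D3NP.SG1) (g2 : D3NP.SG2)
    (g3 : D3NP.SG3) (g4 : D3NP.SG4) (g5 : D3NP.SG5) (dvp : D3NP.SDV) (bor : D3NP.SBOR)
    (ray : D3NP.SRAY) (pos : D3NP.SPOS) (cut : D3NP.SCUT) (rad : D3NP.SRAD) : D3NP.SFIB0 :=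
  fun m lg σ T hm hj up0 had hσ good hT r => fib0_of (fam_of sgn big g1 g2 g3 g4 g5) pos cut rad
    ray bor dvp m lg σ T hm hj up0 had hσ good hT r.com

theorem fib_of_fib0 (h : D3NP.SFIB0) : D3NP.SFIB D3FL.Sm3 :=
  fun m lg σ T hm hj up0 had hσ good hT r wid _ _ _ =>
    h m lg σ T hm hj up0 had hσ good hT r wid

end

end Pool.Agent.MP_3ee8cb_gt.D3NB
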