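import Pool.Agent.MP_3ee8cb_gt.D3NB.Ph
import Pool.Agent.MP_3ee8cb_gt.D3WI.Base

/-! The same identities at one point of differentiability of a chart `(e, t) ↦ Z t (w e)`. -/

namespace Pool.Agent.MP_3ee8cb_gt.D3NB

open Set D3GB D3GB.RP2 Filter Topology
open Pool.Agent.MP_3ee8cb_gt.D3 (MF)
open scoped RealInnerProductSpace

noncomputable section

/-- `det A'` for two Jacobi fields. -/
def yJ (m : MF) (z ξ η : V × V) (t : ℝ) : ℝ := trip (m.Z t z).2 (m.J' z ξ t) (m.J' z η t)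

/-- `det A` for two Jacobi fields. -/
def dJ (m : MF) (z ξ η : V × V) (t : ℝ) : ℝ := trip (m.Z t z).2 (m.J z ξ t) (m.J z η t)

/-- The derivative of `yJ`. -/
def kJ (m : MF) (z ξ η : V × V) (t : ℝ) : ℝ :=
  ⟪m.J' z ξ t, aO m (m.Z t z).1 (m.R (m.Z t z).1 (m.J z η t)) (m.R (m.Z t z).1 (m.Z t z).2)⟫ +
  ⟪m.J' z η t, aO m (m.Z t z).1 (m.R (m.Z t z).1 (m.Z t z).2) (m.R (m.Z t z).1 (m.J z ξ t))⟫

variable {m : MF} {P : V → V × V} {D : V →L[ℝ] V × V} {a : V}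

theorem aO_anti (hm : m.OK) (y u v : V) : aO m y u v = -aO m y v u := by
  rw [aO_eq hm, aO_eq hm]
  refine ext3 ?_ ?_ ?_ <;> simp only [PiLp.add_apply, PiLp.sub_apply, PiLp.neg_apply, cr0, cr1,
    cr2] <;> ring

theorem yJ_der (hm : m.OK) (hj : m.Jac) {z ξ η : V × V} (hz : ‖z.2‖ = 1)
    (hξ : ⟪m.ver z ξ, z.2⟫ = 0) (hη : ⟪m.ver z η, z.2⟫ = 0) (t : ℝ) :
    HasDerivAt (yJ m z ξ η) (kJ m z ξ η t) t := by
  refine (trip_der (hm.ode z t).snd (hj.d2 _ _ t) (hj.d2 _ _ t)).congr_deriv ?_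
  have pe := (D3WI.J'_vel hm hj z ξ t).trans hξ
  have pf := (D3WI.J'_vel hm hj z η t).trans hη
  have wn : ⟪(m.Z t z).2, (m.Z t z).2⟫ = 1 := by
    rw [real_inner_self_eq_norm_sq, hj.norm, hz, one_pow]
  rw [kJ, aO_K hj, aO_K hj, aO_anti hm _ (m.R _ (m.Z t z).2) (m.R _ (m.J z ξ t))]
  simp only [MF.w, MF.vf, om_cr hm]
  generalize aO m _ (m.R _ (m.J z ξ t)) _ = k₁
  generalize aO m _ (m.R _ (m.J z η t)) _ = k₂
  generalize m.J' z ξ t = x at pe ⊢
  generalize m.J' z η t = y at pf ⊢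
  generalize xi m _ _ = o
  generalize (m.Z t z).2 = w at pe pf wn ⊢
  simp only [inner3, trip, cr0, cr1, cr2, PiLp.sub_apply, PiLp.neg_apply] at pe pf wn ⊢
  linear_combination (k₂ 0 * x 0 + k₂ 1 * x 1 + k₂ 2 * x 2 -
      (k₁ 0 * y 0 + k₁ 1 * y 1 + k₁ 2 * y 2)) * wn +
    (k₁ 0 * w 0 + k₁ 1 * w 1 + k₁ 2 * w 2) * pf - (k₂ 0 * w 0 + k₂ 1 * w 1 + k₂ 2 * w 2) * pe

/-- Differentiability moves along the flow. -/
theorem flow_fd (hm : m.OK) (hP : HasFDerivAt P D a) {u : V} {s : ℝ}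
    (h : ∀ᶠ x in 𝓝 a, P (x + s • u) = m.Z s (P x)) :
    HasFDerivAt P ((fderiv ℝ (m.Z s) (P a)).comp D) (a + s • u) := by
  have h1 : HasFDerivAt (fun x => P (x + s • u)) ((fderiv ℝ (m.Z s) (P a)).comp D) a :=
    ((dZt hm s (P a)).hasFDerivAt.comp a hP).congr_of_eventuallyEq h
  exact (hasFDerivAt_comp_add_right _).1 h1

theorem flow_vf (hm : m.OK) (hP : HasFDerivAt P D a) {u : V}
    (h : ∀ s : ℝ, P (a + s • u) = m.Z s (P a)) : D u = m.vf (P a) := by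
  have h1 : HasDerivAt (fun s : ℝ => a + s • u) u 0 := by
    simpa using ((hasDerivAt_id (0 : ℝ)).smul_const u).const_add a
  have h2 : HasFDerivAt P D (a + (0 : ℝ) • u) := by rwa [zero_smul, add_zero]
  have h3 := hm.ode (P a) 0
  rw [hm.zero] at h3
  exact (h2.comp_hasDerivAt 0 h1).unique (h3.congr_of_eventuallyEq (Eventually.of_forall h))

theorem dZ_vf (hm : m.OK) (z : V × V) (s : ℝ) :
    fderiv ℝ (m.Z s) z (m.vf z) = m.vf (m.Z s z) := by
  have h3 := hm.ode z 0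
  have h2 : HasFDerivAt (m.Z s) (fderiv ℝ (m.Z s) z) (m.Z 0 z) := by
    rw [hm.zero]
    exact (dZt hm s z).hasFDerivAt
  have h4 := (hm.ode z (s + 0)).scomp (0 : ℝ) ((hasDerivAt_id (0 : ℝ)).const_add s)
  have h5 := (h2.comp_hasDerivAt 0 h3).unique (h4.congr_of_eventuallyEq
    (Eventually.of_forall fun r => (hm.add s r z).symm))
  simpa [hm.zero] using h5

theorem ver_perp (hm : m.OK) (hP : HasFDerivAt P D a) (h : ∀ᶠ x in 𝓝 a, ‖(P x).2‖ = 1) (e : V) :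
    ⟪m.ver (P a) (D e), (P a).2⟫ = 0 := by
  have h1 := hP.snd.inner ℝ hP.snd
  have h3 := congrArg (fun L : V →L[ℝ] ℝ => L e) (h1.unique
    ((hasFDerivAt_const (1 : ℝ) a).congr_of_eventuallyEq (h.mono fun x hx => by
      simp only [real_inner_self_eq_norm_sq, hx, one_pow])))
  simp only [ContinuousLinearMap.comp_apply, ContinuousLinearMap.prod_apply, fderivInnerCLM_apply,
    ContinuousLinearMap.coe_snd', zero_apply] at h3
  rw [real_inner_comm (D e).2] at h3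
  simp only [MF.ver, ContinuousLinearMap.comp_apply, add_apply, inner_add_left,
    ContinuousLinearMap.coe_snd', ContinuousLinearMap.coe_fst', ContinuousLinearMap.flip_apply,
    D3WI.skew_self hm]
  linarith

variable {z : V × V} {b : V} {s : ℝ}

theorem J_eq (hm : m.OK) (z ξ : V × V) (s : ℝ) :
    (fderiv ℝ (m.Z s) z ξ).1 = m.R (m.Z s z).1 (m.J z ξ s) := (hm.RS _ _).symm

/-- The divergence at the point `b` that lies at time `s` on the orbit of `z`. -/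
theorem dv_pt (hm : m.OK) (h2 : ContDiff ℝ 2 m.om)
    (hP : HasFDerivAt P ((fderiv ℝ (m.Z s) z).comp D) b) (hb : P b = m.Z s z)
    (hD : D (bv 2) = m.vf z) :
    dv (fun x => (P x).1) (fun x => XX m (P x).1 (P x).2) b =
      kJ m z (D (bv 0)) (D (bv 1)) s := by
  rw [dv_XX hm h2 hP.differentiableAt, hP.fderiv, hb, mix, kJ]
  simp only [ContinuousLinearMap.comp_apply, ContinuousLinearMap.coe_fst', hD, dZ_vf hm, ver_vf,
    map_zero, XX_trip hm, J_eq hm]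
  simp only [trip, PiLp.zero_apply, zero_mul, add_zero]
  rfl

theorem jc_pt (hm : m.OK) (hP : HasFDerivAt P ((fderiv ℝ (m.Z s) z).comp D) b)
    (hD : D (bv 2) = m.vf z) :
    (m.S (m.Z s z).1).det * (fderiv ℝ (fun x => (P x).1) b).det =
      dJ m z (D (bv 0)) (D (bv 1)) s := by
  rw [hP.fst.fderiv, mul_comm, rDET3 (ContinuousLinearMap.comp _ _), det_basis, dJ]
  simp only [ContinuousLinearMap.comp_apply, ContinuousLinearMap.coe_fst', hD, dZ_vf hm, J_eq hm]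
  simp only [trip, MF.vf, hm.SR]
  ring

/-- The flux through the front. -/
theorem flux_pt (hm : m.OK) (hP : HasFDerivAt P ((fderiv ℝ (m.Z s) z).comp D) b)
    (hD : D (bv 2) = m.vf z) :
    ⟪ContinuousLinearMap.adjoint (m.S (m.Z s z).1) (m.Z s z).2, XX m (m.Z s z).1 (m.Z s z).2⟫ *
      (fderiv ℝ (fun x => (P x).1) b).det = kp m (m.Z s z) * dJ m z (D (bv 0)) (D (bv 1)) s := by
  have d := detS_ne hm (m.Z s z).1
  rw [ContinuousLinearMap.adjoint_inner_left, ← jc_pt hm hP hD, kp]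
  field_simp

/-- The time derivative of `det A'` along the whole orbit of a point of differentiability. -/
theorem yJ_dv (hm : m.OK) (hj : m.Jac) (h2 : ContDiff ℝ 2 m.om) (hP : HasFDerivAt P D a)
    (h : ∀ᶠ x in 𝓝 a, ‖(P x).2‖ = 1 ∧ ∀ s : ℝ, P (x + s • bv 2) = m.Z s (P x)) (s : ℝ) :
    HasDerivAt (yJ m (P a) (D (bv 0)) (D (bv 1)))
      (dv (fun x => (P x).1) (fun x => XX m (P x).1 (P x).2) (a + s • bv 2)) s := by
  have h0 := h.self_of_nhds
  have h1 := ver_perp hm hP (h.mono fun _ h => h.1)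
  rw [dv_pt hm h2 (flow_fd hm hP (h.mono fun _ h => h.2 s)) (h0.2 s) (flow_vf hm hP h0.2)]
  exact yJ_der hm hj h0.1 (h1 _) (h1 _) s

end

end Pool.Agent.MP_3ee8cb_gt.D3NB
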