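import Pool.Agent.MP_3ee8cb_gt.D3GB.RP2
import Pool.Agent.MP_3ee8cb_gt.D3GB.RHOM

/-! The Einstein density of a moving frame and the second Bianchi identity. -/

namespace Pool.Agent.MP_3ee8cb_gt.D3NB

open Set D3GB D3GB.RP2
open Pool.Agent.MP_3ee8cb_gt.D3 (MF)
open scoped RealInnerProductSpace

noncomputable section

/-- The curvature form as a linear map. -/
def XX (m : MF) (y : V) : V →L[ℝ] V :=
  (innerSL ℝ (aO m y (bv 1) (bv 2))).smulRight (bv 0) +
    (innerSL ℝ (aO m y (bv 2) (bv 0))).smulRight (bv 1) +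
    (innerSL ℝ (aO m y (bv 0) (bv 1))).smulRight (bv 2)

/-- The Einstein density, acting on covectors. -/
def GG (m : MF) (y : V) : V →L[ℝ] V := (XX m y).comp (ContinuousLinearMap.adjoint (m.R y))

/-- The mixed determinant. -/
def mix (F B : V →L[ℝ] V) : ℝ := trip (F (bv 0)) (B (bv 1)) (B (bv 2)) +
  trip (F (bv 1)) (B (bv 2)) (B (bv 0)) + trip (F (bv 2)) (B (bv 0)) (B (bv 1))

/-- The divergence of `f` along `Ψ`. -/
def dv (Ψ f : V → V) (a : V) : ℝ := mix (fderiv ℝ f a) (fderiv ℝ Ψ a)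

theorem bvv (i j : Fin 3) : bv i j = if j = i then 1 else 0 := by simp [bv]

theorem XX0 (m : MF) (y c : V) : XX m y c 0 = ⟪aO m y (bv 1) (bv 2), c⟫ := by simp [XX, bv]

theorem XX1 (m : MF) (y c : V) : XX m y c 1 = ⟪aO m y (bv 2) (bv 0), c⟫ := by simp [XX, bv]

theorem XX2 (m : MF) (y c : V) : XX m y c 2 = ⟪aO m y (bv 0) (bv 1), c⟫ := by simp [XX, bv]

theorem lin3 (L : V →L[ℝ] V) (u : V) :
    L u = u 0 • L (bv 0) + u 1 • L (bv 1) + u 2 • L (bv 2) := by
  conv_lhs => rw [sum_bv u]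
  simp only [map_add, map_smul]

theorem lin33 (L : V →L[ℝ] V →L[ℝ] V) (u v : V) :
    L u v = u 0 • L (bv 0) v + u 1 • L (bv 1) v + u 2 • L (bv 2) v := lin3 (L.flip v) u

theorem mix_basis (F B : V →L[ℝ] V) (a b c : V) : trip a b c * mix F B =
    trip (F a) (B b) (B c) + trip (F b) (B c) (B a) + trip (F c) (B a) (B b) := by
  rw [lin3 F a, lin3 F b, lin3 F c, lin3 B a, lin3 B b, lin3 B c, mix]
  simp only [trip, PiLp.add_apply, PiLp.smul_apply, smul_eq_mul]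
  ring

theorem det_basis (B : V →L[ℝ] V) (a b c : V) :
    trip a b c * B.det = trip (B a) (B b) (B c) := by
  rw [rDET3 B, lin3 B a, lin3 B b, lin3 B c]
  simp only [trip, PiLp.add_apply, PiLp.smul_apply, smul_eq_mul]
  ring

variable {m : MF}

theorem XX_trip (hm : m.OK) (y c u v : V) : trip (XX m y c) u v = ⟪c, aO m y u v⟫ := by
  simp only [trip, XX0, XX1, XX2, aO_eq hm]
  rw [lin33 _ u v, lin33 _ v u, lin3 (xi m y) u, lin3 (xi m y) v,
    lin3 (fderiv ℝ (xi m) y (bv 0)) u, lin3 (fderiv ℝ (xi m) y (bv 1)) u,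
    lin3 (fderiv ℝ (xi m) y (bv 2)) u, lin3 (fderiv ℝ (xi m) y (bv 0)) v,
    lin3 (fderiv ℝ (xi m) y (bv 1)) v, lin3 (fderiv ℝ (xi m) y (bv 2)) v]
  simp only [inner3, cr0, cr1, cr2, PiLp.add_apply, PiLp.sub_apply, PiLp.smul_apply, smul_eq_mul]
  ring

/-- The cross product as a bilinear map. -/
def crL : V →L[ℝ] V →L[ℝ] V :=
  LinearMap.toContinuousLinearMap (LinearMap.toContinuousLinearMap.toLinearMap.comp
    (LinearMap.mk₂ ℝ cr
      (fun a b c => ext3 (by simp [cr0]; ring) (by simp [cr1]; ring) (by simp [cr2]; ring))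
      (fun a b c => ext3 (by simp [cr0]; ring) (by simp [cr1]; ring) (by simp [cr2]; ring))
      (fun a b c => ext3 (by simp [cr0]; ring) (by simp [cr1]; ring) (by simp [cr2]; ring))
      (fun a b c => ext3 (by simp [cr0]; ring) (by simp [cr1]; ring) (by simp [cr2]; ring))))

theorem crL_app (a b : V) : crL a b = cr a b := rfl

theorem xi_c2 (h2 : ContDiff ℝ 2 m.om) : ContDiff ℝ 2 (xi m) :=
  contDiff_const.clm_comp h2

theorem aO_c1 (hm : m.OK) (h2 : ContDiff ℝ 2 m.om) (u v : V) :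
    ContDiff ℝ 1 fun y => aO m y u v := by
  have x2 := xi_c2 h2
  have d1 : ContDiff ℝ 1 (fderiv ℝ (xi m)) := x2.fderiv_right (m := 1) le_rfl
  have x1 : ContDiff ℝ 1 (xi m) := x2.of_le one_le_two
  simp only [aO_eq hm, ← crL_app]
  exact (((d1.clm_apply contDiff_const).clm_apply contDiff_const).sub
    ((d1.clm_apply contDiff_const).clm_apply contDiff_const)).add
    ((crL.contDiff.comp (x1.clm_apply contDiff_const)).clm_apply (x1.clm_apply contDiff_const))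

theorem XX_c1 (hm : m.OK) (h2 : ContDiff ℝ 2 m.om) : ContDiff ℝ 1 (XX m) := by
  have h : ∀ u v w : V, ContDiff ℝ 1 fun y => (innerSL ℝ (aO m y u v)).smulRight w :=
    fun u v w => ((ContinuousLinearMap.smulRightL ℝ V V).flip w).contDiff.comp
      ((innerSL ℝ).contDiff.comp (aO_c1 hm h2 u v))
  exact ((h _ _ _).add (h _ _ _)).add (h _ _ _)

theorem GG_c1 (hm : m.OK) (h2 : ContDiff ℝ 2 m.om) : ContDiff ℝ 1 (GG m) := by
  refine (XX_c1 hm h2).clm_comp ?_
  exact (ContinuousLinearMap.adjoint (𝕜 := ℝ) (E := V) (F := V)).contDiff.comp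
    (hm.cR.of_le one_le_two)

/-- The derivative of the curvature form. -/
theorem dXX (hm : m.OK) (h2 : ContDiff ℝ 2 m.om) (y c u v w : V) :
    trip (fderiv ℝ (XX m) y u c) v w = ⟪c, fderiv ℝ (fderiv ℝ (xi m)) y u v w -
      fderiv ℝ (fderiv ℝ (xi m)) y u w v + (cr (fderiv ℝ (xi m) y u v) (xi m y w) +
        cr (xi m y v) (fderiv ℝ (xi m) y u w))⟫ := by
  have x2 := xi_c2 h2
  have d2 : HasFDerivAt (fderiv ℝ (xi m)) (fderiv ℝ (fderiv ℝ (xi m)) y) y :=
    ((x2.fderiv_right (m := 1) le_rfl).differentiable one_ne_zero y).hasFDerivAt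
  have d1 : HasFDerivAt (xi m) (fderiv ℝ (xi m) y) y :=
    (x2.differentiable two_ne_zero y).hasFDerivAt
  have dX : HasFDerivAt (XX m) (fderiv ℝ (XX m) y) y :=
    ((XX_c1 hm h2).differentiable one_ne_zero y).hasFDerivAt
  have a : ∀ p q, HasFDerivAt (fun y => fderiv ℝ (xi m) y p q) _ y := fun p q =>
    (d2.clm_apply (hasFDerivAt_const p y)).clm_apply (hasFDerivAt_const q y)
  have b : ∀ p, HasFDerivAt (fun y => xi m y p) _ y := fun p =>
    d1.clm_apply (hasFDerivAt_const p y)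
  have h1 := (hasFDerivAt_const c y).inner ℝ (((a v w).fun_sub (a w v)).fun_add
    ((crL.hasFDerivAt.comp y (b v)).clm_apply (b w)))
  have h3 := (dX.clm_apply (hasFDerivAt_const c y)).inner ℝ (hasFDerivAt_const (cr v w) y)
  have tr : ∀ z : V, ⟪z, cr v w⟫ = trip z v w := fun z => by
    simp only [inner3, cr0, cr1, cr2, trip]
  have e : (fun y => ⟪XX m y c, cr v w⟫) = fun y => ⟪c, fderiv ℝ (xi m) y v w -
      fderiv ℝ (xi m) y w v + (crL ∘ fun y => xi m y v) y (xi m y w)⟫ :=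
    funext fun y => by rw [tr, XX_trip hm, aO_eq hm]; rfl
  rw [e] at h3
  have := congrArg (fun L : V →L[ℝ] ℝ => L u) (h3.unique h1)
  simp [crL_app, tr] at this
  rw [this, add_comm (cr (xi m y v) _)]

/-- The second Bianchi identity. -/
theorem bianchi2 (hm : m.OK) (h2 : ContDiff ℝ 2 m.om) (y c u v w : V) :
    trip (fderiv ℝ (XX m) y u c) v w + trip (fderiv ℝ (XX m) y v c) w u +
      trip (fderiv ℝ (XX m) y w c) u v =
    ⟪m.om y u c, aO m y v w⟫ + ⟪m.om y v c, aO m y w u⟫ + ⟪m.om y w c, aO m y u v⟫ := by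
  have sy : ∀ a b, fderiv ℝ (fderiv ℝ (xi m)) y a b = fderiv ℝ (fderiv ℝ (xi m)) y b a :=
    fun a b => ((xi_c2 h2).contDiffAt.isSymmSndFDerivAt (by simp)).eq a b
  simp only [dXX hm h2, aO_eq hm, om_cr hm]
  rw [sy v u, sy w u, sy w v]
  simp only [inner3, cr0, cr1, cr2, PiLp.add_apply, PiLp.sub_apply]
  ring

/-- The divergence of the curvature form along a map into the tangent bundle. -/
theorem dv_XX (hm : m.OK) (h2 : ContDiff ℝ 2 m.om) {P : V → V × V} {a : V}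
    (hP : DifferentiableAt ℝ P a) :
    dv (fun x => (P x).1) (fun x => XX m (P x).1 (P x).2) a =
      mix ((XX m (P a).1).comp ((m.ver (P a)).comp (fderiv ℝ P a)))
        ((ContinuousLinearMap.fst ℝ V V).comp (fderiv ℝ P a)) := by
  have e1 : fderiv ℝ (fun x => (P x).1) a = _ := hP.hasFDerivAt.fst.fderiv
  have e2 : fderiv ℝ (fun x => (P x).2) a = _ := hP.hasFDerivAt.snd.fderiv
  have dX := (XX_c1 hm h2).differentiable one_ne_zero (P a).1
  have e3 := fd_app (Y := fun x => (P x).1) (W := fun x => (P x).2) dX hP.fst hP.snd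
  have ta : ∀ p q u v : V, trip (p + q) u v = trip p u v + trip q u v := fun p q u v => by
    simp only [trip, PiLp.add_apply]
    ring
  have B := bianchi2 hm h2 (P a).1 (P a).2 (fderiv ℝ P a (bv 0)).1 (fderiv ℝ P a (bv 1)).1
    (fderiv ℝ P a (bv 2)).1
  simp only [dv, mix, e3, e1, e2, ta, ContinuousLinearMap.comp_apply, MF.ver, add_apply,
    ContinuousLinearMap.coe_fst', ContinuousLinearMap.coe_snd', ContinuousLinearMap.flip_apply,
    map_add, XX_trip hm] at B ⊢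
  linarith

theorem aO_K (hj : m.Jac) (y a b c : V) :
    m.K y a b c = cr (aO m y (m.R y a) (m.R y b)) c := by
  obtain ⟨L, hL⟩ := hj.lK y
  rw [hL, skew_cr (L a b) (fun p q => by rw [← hL, ← hL]; exact hj.sK y a b p q)]
  congr 1
  refine ext3 ?_ ?_ ?_
  · rw [ac0, ← hL]; rfl
  · rw [ac1, ← hL]; rfl
  · rw [ac2, ← hL]; rfl

theorem in_cr (z v w : V) : ⟪z, cr v w⟫ = trip z v w := by
  simp only [inner3, cr0, cr1, cr2, trip]

theorem SX_trip (hm : m.OK) (y c a b : V) : ⟪m.S y (XX m y c), cr a b⟫ =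
    (m.S y).det * ⟪c, aO m y (m.R y a) (m.R y b)⟫ := by
  rw [in_cr, ← XX_trip hm, mul_comm, det_basis, hm.SR, hm.SR]

theorem exists_cr (c : V) : ∃ a b, cr a b = c := by
  by_cases h : c 0 = 0
  · exact ⟨bv 0, WithLp.toLp 2 ![0, c 2, -c 1], ext3 (by simp [cr0, bv, h])
      (by simp [cr1, bv]) (by simp [cr2, bv])⟩
  · refine ⟨WithLp.toLp 2 ![-c 1 / c 0, 1, 0], WithLp.toLp 2 ![-c 2, 0, c 0],
      ext3 (by simp [cr0]) ?_ (by simp [cr2])⟩
    simp [cr1]
    field_simp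

theorem SX_K (hm : m.OK) (hj : m.Jac) (y a b p q : V) :
    ⟪m.S y (XX m y (cr p q)), cr a b⟫ = (m.S y).det * ⟪m.K y a b p, q⟫ := by
  rw [SX_trip hm, aO_K hj]
  simp only [inner3, cr0, cr1, cr2]
  ring

theorem GG_in (hm : m.OK) (y θ θ' : V) : ⟪GG m y θ, θ'⟫ =
    ⟪m.S y (XX m y (ContinuousLinearMap.adjoint (m.R y) θ)),
      ContinuousLinearMap.adjoint (m.R y) θ'⟫ := by
  rw [ContinuousLinearMap.adjoint_inner_right, hm.RS]
  rfl

theorem GG_symm (hm : m.OK) (hj : m.Jac) (y θ θ' : V) : ⟪GG m y θ, θ'⟫ = ⟪θ, GG m y θ'⟫ := by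
  rw [real_inner_comm (GG m y θ') θ, GG_in hm, GG_in hm]
  obtain ⟨a, b, e⟩ := exists_cr (ContinuousLinearMap.adjoint (m.R y) θ)
  obtain ⟨p, q, e'⟩ := exists_cr (ContinuousLinearMap.adjoint (m.R y) θ')
  rw [← e, ← e', SX_K hm hj, SX_K hm hj, hj.pK]

theorem GG_pos (hm : m.OK) (hj : m.Jac) {lo : ℝ} (up : m.Up lo) (y θ : V) :
    lo * ((m.S y).det ^ 2 * ‖ContinuousLinearMap.adjoint (m.R y) θ‖ ^ 2) ≤
      (m.S y).det * ⟪GG m y θ, θ⟫ := by
  rw [GG_in hm]
  obtain ⟨a, b, e⟩ := exists_cr (ContinuousLinearMap.adjoint (m.R y) θ)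
  have h := up y a b
  have n : ‖cr a b‖ ^ 2 = ‖a‖ ^ 2 * ‖b‖ ^ 2 - ⟪a, b⟫ ^ 2 := by
    simp only [← real_inner_self_eq_norm_sq, inner3, cr0, cr1, cr2]
    ring
  have s : ⟪m.K y a b a, b⟫ = -⟪m.K y a b b, a⟫ := by rw [hj.sK, real_inner_comm]
  rw [← e, SX_K hm hj, n, s]
  nlinarith [mul_le_mul_of_nonneg_left h (sq_nonneg (m.S y).det)]

theorem detS_ne (hm : m.OK) (y : V) : (m.S y).det ≠ 0 := fun h => by
  have e := det_basis (m.S y) (m.R y (bv 0)) (m.R y (bv 1)) (m.R y (bv 2))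
  rw [h, hm.SR, hm.SR, hm.SR] at e
  simp [trip, bv] at e

/-- On the covector of `w` the Einstein density is the curvature form. -/
theorem GG_flat (hm : m.OK) (y w : V) :
    GG m y (ContinuousLinearMap.adjoint (m.S y) w) = XX m y w := by
  have e : ContinuousLinearMap.adjoint (m.R y) (ContinuousLinearMap.adjoint (m.S y) w) = w :=
    ext_inner_right ℝ fun v => by
      rw [ContinuousLinearMap.adjoint_inner_left, ContinuousLinearMap.adjoint_inner_left, hm.SR]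
  rw [GG, ContinuousLinearMap.comp_apply, e]

/-- The product rule. -/
theorem dv_smul {Ψ f : V → V} {ζ : V → ℝ} {a : V} (hΨ : DifferentiableAt ℝ Ψ a)
    (hf : DifferentiableAt ℝ f a) (hζ : DifferentiableAt ℝ ζ (Ψ a)) :
    dv Ψ (fun x => ζ (Ψ x) • f x) a =
      ζ (Ψ a) * dv Ψ f a + fderiv ℝ ζ (Ψ a) (f a) * (fderiv ℝ Ψ a).det := by
  have e : fderiv ℝ (fun x => ζ (Ψ x) • f x) a = _ :=
    ((hζ.hasFDerivAt.comp a hΨ.hasFDerivAt).fun_smul hf.hasFDerivAt).fderiv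
  have l : ∀ u : V, fderiv ℝ ζ (Ψ a) u = u 0 * fderiv ℝ ζ (Ψ a) (bv 0) +
      u 1 * fderiv ℝ ζ (Ψ a) (bv 1) + u 2 * fderiv ℝ ζ (Ψ a) (bv 2) := fun u => by
    conv_lhs => rw [sum_bv u]
    simp only [map_add, map_smul, smul_eq_mul]
  simp only [dv, mix, e, add_apply, smul_apply, ContinuousLinearMap.smulRight_apply,
    ContinuousLinearMap.comp_apply, Function.comp]
  rw [rDET3, l (f a), l (fderiv ℝ Ψ a (bv 0)), l (fderiv ℝ Ψ a (bv 1)), l (fderiv ℝ Ψ a (bv 2))]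
  simp only [trip, PiLp.add_apply, PiLp.smul_apply, smul_eq_mul]
  ring

end

end Pool.Agent.MP_3ee8cb_gt.D3NB
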