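import Pool.Agent.MP_3ee8cb_gt.D3NB.Pt
import Pool.Agent.MP_3ee8cb_gt.D3OD.DiaG

/-! The Euler density on far shells. -/

namespace Pool.Agent.MP_3ee8cb_gt.D3NB

open Set D3GB D3GB.RP2 Filter Topology Metric
open Pool.Agent.MP_3ee8cb_gt.D3 (MF)
open D3.Dia (Fld)
open scoped RealInnerProductSpace

noncomputable section

/-- The Einstein tensor in the frame. -/
def Gt (m : MF) (y : V) : V →L[ℝ] V := (m.S y).det⁻¹ • (m.S y).comp (XX m y)

variable {m : MF}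

theorem Gt_cr (hm : m.OK) (hj : m.Jac) (y a b p q : V) :
    ⟪Gt m y (cr p q), cr a b⟫ = ⟪m.K y a b p, q⟫ := by
  rw [Gt, smul_apply, real_inner_smul_left, ContinuousLinearMap.comp_apply, SX_K hm hj,
    inv_mul_cancel_left₀ (detS_ne hm y)]

theorem Gt_symm (hm : m.OK) (hj : m.Jac) (y c d : V) : ⟪Gt m y c, d⟫ = ⟪Gt m y d, c⟫ := by
  obtain ⟨a, b, rfl⟩ := exists_cr c
  obtain ⟨p, q, rfl⟩ := exists_cr d
  rw [Gt_cr hm hj, Gt_cr hm hj, hj.pK]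

theorem Gt_self (hm : m.OK) (hj : m.Jac) {lo hi : ℝ} (up : m.Up lo) (dn : m.Dn hi) (y c : V) :
    lo * ‖c‖ ^ 2 ≤ ⟪Gt m y c, c⟫ ∧ ⟪Gt m y c, c⟫ ≤ hi * ‖c‖ ^ 2 := by
  obtain ⟨a, b, rfl⟩ := exists_cr c
  have n : ‖cr a b‖ ^ 2 = ‖a‖ ^ 2 * ‖b‖ ^ 2 - ⟪a, b⟫ ^ 2 := by
    simp only [← real_inner_self_eq_norm_sq, inner3, cr0, cr1, cr2]
    ring
  have s : ⟪m.K y a b a, b⟫ = -⟪m.K y a b b, a⟫ := by rw [hj.sK, real_inner_comm]
  rw [Gt_cr hm hj, n, s]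
  exact ⟨up y a b, dn y a b⟩

theorem Gt_abs (hm : m.OK) (hj : m.Jac) {lo hi : ℝ} (h0 : 0 ≤ lo) (up : m.Up lo) (dn : m.Dn hi)
    (y : V) {w : V} (hw : ‖w‖ = 1) (d : V) : |⟪Gt m y w, d⟫| ≤ hi * ‖d‖ := by
  rcases eq_or_ne d 0 with rfl | hd
  · simp
  have n := norm_pos_iff.2 hd
  have a := (Gt_self hm hj up dn y d).2
  have b := (Gt_self hm hj up dn y w).2
  have c : ∀ l : ℝ, 0 ≤ ⟪Gt m y d, d⟫ + 2 * l * ⟪Gt m y w, d⟫ + l ^ 2 * ⟪Gt m y w, w⟫ := fun l => by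
    have := (mul_nonneg h0 (sq_nonneg _)).trans (Gt_self hm hj up dn y (d + l • w)).1
    simp only [map_add, map_smul, inner_add_left, inner_add_right, real_inner_smul_left,
      real_inner_smul_right, Gt_symm hm hj y d w] at this
    linarith
  rw [hw, one_pow, mul_one] at b
  have b' := mul_le_mul_of_nonneg_left b (sq_nonneg ‖d‖)
  refine abs_le.2 ⟨le_of_mul_le_mul_left ?_ n, le_of_mul_le_mul_left ?_ n⟩
  · nlinarith [c ‖d‖]
  · nlinarith [c (-‖d‖)]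

theorem decay {a M t : ℝ} {X X' : ℝ → V} (h : Fld a X X') (ha : 0 < a) (ht : t ≤ 0)
    (hp : 0 ≤ ⟪X t, X' t⟫) (h0 : ‖X 0‖ ≤ M) :
    ‖X t‖ ^ 2 ≤ (1 + a⁻¹) * Real.exp a * M ^ 2 * Real.exp (a * t) := by
  choose d h2 h3 using h.n2
  have pp : ∀ s, t ≤ s → 0 ≤ ⟪X s, X' s⟫ := fun s hs => hp.trans (h.mono hs)
  have de := fun s => (((hasDerivAt_id s).const_mul (-a)).exp).mul
    ((h2 s).add ((h.n1 s).const_mul a))
  have mo : MonotoneOn (fun s => Real.exp (-a * s) * (⟪X s, X' s⟫ + a * ‖X s‖ ^ 2)) (Ici t) :=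
    monotoneOn_of_hasDerivWithinAt_nonneg (convex_Ici t)
      (fun s _ => (de s).continuousAt.continuousWithinAt) (fun s _ => (de s).hasDerivWithinAt)
      fun s hs => by
        have e := Real.exp_pos (-a * s)
        have k : 0 ≤ d s + a * ⟪X s, X' s⟫ - a ^ 2 * ‖X s‖ ^ 2 := by
          linarith [h3 s, sq_nonneg ‖X' s‖, mul_nonneg ha.le (pp s (interior_subset hs))]
        have := mul_nonneg e.le k
        simp only [id, Pi.add_apply]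
        nlinarith
  have mu : MonotoneOn (fun s => ‖X s‖ ^ 2) (Ici t) :=
    monotoneOn_of_hasDerivWithinAt_nonneg (convex_Ici t)
      (fun s _ => (h.n1 s).continuousAt.continuousWithinAt) (fun s _ => (h.n1 s).hasDerivWithinAt)
      fun s hs => mul_nonneg two_pos.le (pp s (interior_subset hs))
  have h6 : ‖X 0‖ ^ 2 ≤ M ^ 2 := by gcongr
  have e := Real.exp_pos (a * t)
  have ea := Real.exp_pos a
  have ia := inv_pos.2 ha
  rcases le_total t (-1) with l | l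
  · have h4 := mo (mem_Ici.2 le_rfl) (mem_Ici.2 l) l
    have h8 := (mu (mem_Ici.2 l) (mem_Ici.2 ht) (by norm_num)).trans h6
    obtain ⟨s, hs, h9⟩ := exists_hasDerivAt_eq_slope (fun s => ‖X s‖ ^ 2) _
      (show (-1 : ℝ) < 0 by norm_num) (fun s _ => (h.n1 s).continuousAt.continuousWithinAt)
      fun s _ => h.n1 s
    have h5 : ⟪X (-1), X' (-1)⟫ ≤ M ^ 2 := by
      have := h.mono hs.1.le
      simp only [sub_neg_eq_add, zero_add, div_one] at h9 this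
      nlinarith [sq_nonneg ‖X (-1)‖, sq_nonneg M]
    have e1 : Real.exp (a * t) * Real.exp (-a * t) = 1 := by rw [← Real.exp_add]; simp
    simp only [mul_neg, mul_one, neg_neg] at h4 h8
    have h7 : ⟪X t, X' t⟫ + a * ‖X t‖ ^ 2 ≤
        Real.exp (a * t) * (Real.exp a * (M ^ 2 + a * M ^ 2)) := by
      have := mul_le_mul_of_nonneg_left (h4.trans (mul_le_mul_of_nonneg_left (add_le_add h5
        (mul_le_mul_of_nonneg_left h8 ha.le)) ea.le)) e.le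
      rwa [← mul_assoc, e1, one_mul] at this
    refine le_of_mul_le_mul_left ?_ ha
    have : a * ((1 + a⁻¹) * Real.exp a * M ^ 2 * Real.exp (a * t)) =
        Real.exp (a * t) * (Real.exp a * (M ^ 2 + a * M ^ 2)) := by
      field_simp
      ring
    linarith
  · have h8 : ‖X t‖ ^ 2 ≤ M ^ 2 := (mu (mem_Ici.2 le_rfl) (mem_Ici.2 ht) ht).trans h6
    have e1 : 1 ≤ Real.exp a * Real.exp (a * t) := by
      rw [← Real.exp_add]
      exact Real.one_le_exp (by nlinarith)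
    have := mul_le_mul_of_nonneg_left e1 (sq_nonneg M)
    nlinarith [mul_nonneg (mul_nonneg ia.le (mul_pos ea e).le) (sq_nonneg M)]

theorem abs_trip {w : V} (hw : ‖w‖ = 1) (x y : V) : |trip w x y| ≤ (‖x‖ ^ 2 + ‖y‖ ^ 2) / 2 := by
  have n : ‖cr x y‖ ^ 2 = ‖x‖ ^ 2 * ‖y‖ ^ 2 - ⟪x, y⟫ ^ 2 := by
    simp only [← real_inner_self_eq_norm_sq, inner3, cr0, cr1, cr2]
    ring
  rw [← in_cr]
  refine (abs_real_inner_le_norm _ _).trans ?_
  rw [hw, one_mul]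
  refine le_of_sq_le_sq ?_ (by positivity)
  nlinarith [sq_nonneg ⟪x, y⟫, sq_nonneg (‖x‖ ^ 2 - ‖y‖ ^ 2)]

theorem exists_psi : ∃ (ψ : ℝ → ℝ) (c : ℝ), ContDiff ℝ 1 ψ ∧ (∀ s, 0 ≤ ψ s ∧ ψ s ≤ 1) ∧
    (∀ s, s ≤ 1 → ψ s = 1) ∧ (∀ s, 2 ≤ s → ψ s = 0) ∧ ∀ s, -c ≤ deriv ψ s ∧ deriv ψ s ≤ 0 ∧
      (deriv ψ s ≠ 0 → 1 ≤ s ∧ s ≤ 2) := by
  have c1 : ContDiff ℝ 1 fun s : ℝ => Real.smoothTransition (2 - s) :=
    (Real.smoothTransition.contDiff (n := 1)).comp (contDiff_const.sub contDiff_id)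
  have o : ∀ s : ℝ, s ≤ 1 → Real.smoothTransition (2 - s) = 1 := fun s h =>
    Real.smoothTransition.one_of_one_le (by linarith)
  have z : ∀ s : ℝ, 2 ≤ s → Real.smoothTransition (2 - s) = 0 := fun s h =>
    Real.smoothTransition.zero_of_nonpos (by linarith)
  have su : ∀ s, deriv (fun s : ℝ => Real.smoothTransition (2 - s)) s ≠ 0 → 1 ≤ s ∧ s ≤ 2 :=
    fun s h => ⟨not_lt.1 fun l => h (by
      rw [EventuallyEq.deriv_eq (f := fun _ => (1 : ℝ)) ((eventually_lt_nhds l).mono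
        fun x hx => o x hx.le), deriv_const]), not_lt.1 fun l => h (by
      rw [EventuallyEq.deriv_eq (f := fun _ => (0 : ℝ)) ((eventually_gt_nhds l).mono
        fun x hx => z x hx.le), deriv_const])⟩
  obtain ⟨c, hc⟩ := (isCompact_Icc (a := (1 : ℝ)) (b := 2)).exists_bound_of_continuousOn
    (c1.continuous_deriv le_rfl).continuousOn
  refine ⟨_, c, c1, fun s => ⟨Real.smoothTransition.nonneg _, Real.smoothTransition.le_one _⟩,
    o, z, fun s => ⟨?_, ?_, su s⟩⟩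
  · by_cases h : deriv (fun s : ℝ => Real.smoothTransition (2 - s)) s = 0
    · rw [h, neg_nonpos]
      exact (norm_nonneg _).trans (hc 1 ⟨le_rfl, one_le_two⟩)
    · exact neg_le_of_abs_le (hc s (su s h))
  · exact Antitone.deriv_nonpos fun x y h => Real.smoothTransition.monotone (by linarith)

/-- The Euler density of the cut-off `χ` at time `t`. -/
def eu (m : MF) (χ : V → ℝ) (z ξ η : V × V) (t : ℝ) : ℝ :=
  fderiv ℝ χ (m.Z t z).1 (m.R (m.Z t z).1 (m.Z t z).2) * yJ m z ξ η t -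
    fderiv ℝ χ (m.Z t z).1 (XX m (m.Z t z).1 (m.Z t z).2) * (dJ m z ξ η t / (m.S (m.Z t z).1).det)

/-- A bounded tangent vector of a Legendrian surface. -/
structure Tg (m : MF) (M : ℝ) (z ξ : V × V) : Prop where
  hor : ⟪m.hor z ξ, z.2⟫ = 0
  ver : ⟪m.ver z ξ, z.2⟫ = 0
  bh : ‖m.hor z ξ‖ ≤ M

/-- A cut-off function of radius `ρ` with its two estimates. -/
structure Cut (m : MF) (lg : V × V → V) (o : V) (a r M c ρ : ℝ) (χ : V → ℝ) : Prop where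
  c1 : ContDiff ℝ 1 χ
  nn : ∀ y, 0 ≤ χ y
  le : ∀ y, χ y ≤ 1
  cs : HasCompactSupport χ
  one : ∀ y, ‖lg (o, y)‖ < ρ → ∀ᶠ x in 𝓝 y, χ x = 1
  far : ∀ z : V × V, ‖z.2‖ = 1 → ‖lg (o, z.1)‖ ≤ r → ∀ t, 2 * ρ + r < |t| →
    ∀ᶠ x in 𝓝 (m.Z t z).1, χ x = 0
  ent : ∀ (z ξ η : V × V) (ε t : ℝ), ‖z.2‖ = 1 → ‖lg (o, z.1)‖ ≤ r → Tg m M z ξ → Tg m M z η →
    |ε| = 1 → 0 ≤ ε * yJ m z ξ η t → t ≤ 0 → (ε * dJ m z ξ η t ≤ 0 ∨
      0 ≤ ⟪m.J z ξ t, m.J' z ξ t⟫ ∧ 0 ≤ ⟪m.J z η t, m.J' z η t⟫) →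
    -(Iic (r - ρ)).indicator (fun t => c * Real.exp (a * t)) t ≤ ε * eu m χ z ξ η t
  exi : ∀ (z ξ η : V × V) (ε t : ℝ), ‖z.2‖ = 1 → ‖lg (o, z.1)‖ ≤ r → Tg m M z ξ → Tg m M z η →
    |ε| = 1 → 0 ≤ ε * yJ m z ξ η t → 0 ≤ t → (ε * dJ m z ξ η t ≤ 0 ∨
      ⟪m.J z ξ t, m.J' z ξ t⟫ ≤ 0 ∧ ⟪m.J z η t, m.J' z η t⟫ ≤ 0) →
    ε * eu m χ z ξ η t ≤ (Ici (ρ - r)).indicator (fun t => c * Real.exp (-(a * t))) t

theorem fldT (hm : m.OK) (hj : m.Jac) {a M : ℝ} (up : m.Up (a ^ 2)) {z ξ : V × V} (hz : ‖z.2‖ = 1)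
    (h : Tg m M z ξ) : Fld a (m.J z ξ) (m.J' z ξ) := D3.Dia.fld hm hj up z ξ hz fun t => by
  rw [real_inner_comm, D3WI.J_vel hm hj, h.hor, h.ver]
  simp

theorem dJ_ent (hm : m.OK) (hj : m.Jac) {a M t : ℝ} (ha : 0 < a) (up : m.Up (a ^ 2))
    {z ξ η : V × V} (hz : ‖z.2‖ = 1) (h : Tg m M z ξ) (h' : Tg m M z η) (ht : t ≤ 0)
    (p : 0 ≤ ⟪m.J z ξ t, m.J' z ξ t⟫) (p' : 0 ≤ ⟪m.J z η t, m.J' z η t⟫) :
    |dJ m z ξ η t| ≤ (1 + a⁻¹) * Real.exp a * M ^ 2 * Real.exp (a * t) := by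
  have d := decay (M := M) (fldT hm hj up hz h) ha ht p
    (by rw [D3WI.J_zero hm]; exact h.bh)
  have d' := decay (M := M) (fldT hm hj up hz h') ha ht p'
    (by rw [D3WI.J_zero hm]; exact h'.bh)
  exact (abs_trip ((hj.norm t z).trans hz) _ _).trans (by linarith)

theorem dJ_exi (hm : m.OK) (hj : m.Jac) {a M t : ℝ} (ha : 0 < a) (up : m.Up (a ^ 2))
    {z ξ η : V × V} (hz : ‖z.2‖ = 1) (h : Tg m M z ξ) (h' : Tg m M z η) (ht : 0 ≤ t)
    (p : ⟪m.J z ξ t, m.J' z ξ t⟫ ≤ 0) (p' : ⟪m.J z η t, m.J' z η t⟫ ≤ 0) :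
    |dJ m z ξ η t| ≤ (1 + a⁻¹) * Real.exp a * M ^ 2 * Real.exp (-(a * t)) := by
  have d := decay (t := -t) (M := M) (fldT hm hj up hz h).rev ha (neg_nonpos.2 ht) (by simpa)
    (by rw [neg_zero, D3WI.J_zero hm]; exact h.bh)
  have d' := decay (t := -t) (M := M) (fldT hm hj up hz h').rev ha (neg_nonpos.2 ht) (by simpa)
    (by rw [neg_zero, D3WI.J_zero hm]; exact h'.bh)
  rw [neg_neg, mul_neg] at d d'
  exact (abs_trip ((hj.norm t z).trans hz) _ _).trans (by linarith)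

theorem exists_shell (hm : m.OK) (hj : m.Jac) {lg : V × V → V} (hl : m.Had lg) {a hi : ℝ}
    (ha : 0 < a) (up : m.Up (a ^ 2)) (dn : m.Dn hi) (o : V) (r M : ℝ) :
    ∃ c ρ₀, 0 ≤ c ∧ ∀ ρ, ρ₀ ≤ ρ → ∃ χ, Cut m lg o a r M c ρ χ := by
  obtain ⟨ψ, c, c1, p0, p1, p2, p3⟩ := exists_psi
  have c0 : 0 ≤ c := by linarith [(p3 0).1, (p3 0).2.1]
  have h0 : 0 ≤ hi := by
    have := Gt_abs hm hj (sq_nonneg a) up dn 0 (w := bv 0) (by simp [bv]) (bv 0)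
    have n : ‖bv 0‖ = 1 := by simp [bv]
    rw [n, mul_one] at this
    exact (abs_nonneg _).trans this
  have a2 := pow_pos ha 2
  refine ⟨2 * c * hi * ((1 + a⁻¹) * Real.exp a * M ^ 2), max 1 (2 * |r| + |r| * hi / a ^ 2),
    by positivity, fun ρ hρ => ?_⟩
  have ρ1 : 1 ≤ ρ := (le_max_left _ _).trans hρ
  have ρ2 := (le_max_right _ _).trans hρ
  have ρ0 : 0 < ρ ^ 2 := by positivity
  have cl : ContDiff ℝ 1 fun y : V => lg (o, y) := hl.c1.comp (contDiff_const.prodMk contDiff_id)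
  have cq : ContDiff ℝ 1 fun y : V => ‖lg (o, y)‖ ^ 2 / 2 / ρ ^ 2 :=
    ((cl.norm_sq ℝ).div_const 2).div_const _
  have z2 : ∀ y, 2 * ρ ≤ ‖lg (o, y)‖ → ψ (‖lg (o, y)‖ ^ 2 / 2 / ρ ^ 2) = 0 := fun y h =>
    p2 _ (by rw [le_div_iff₀ ρ0]; nlinarith)
  have dχ : ∀ y u, fderiv ℝ (fun y : V => ψ (‖lg (o, y)‖ ^ 2 / 2 / ρ ^ 2)) y u =
      -deriv ψ (‖lg (o, y)‖ ^ 2 / 2 / ρ ^ 2) / ρ ^ 2 * ⟪lg (y, o), m.S y u⟫ := fun y u => by
    have d0 : HasFDerivAt (fun q : V × V => ‖lg q‖ ^ 2 / 2) _ (o, y) :=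
      (((hl.c1.norm_sq ℝ).div_const 2).differentiable one_ne_zero _).hasFDerivAt
    have d1 := ((HasFDerivAt.comp (f := fun y : V => (o, y)) y d0
      ((hasFDerivAt_const o y).prodMk (hasFDerivAt_id y))).mul_const (ρ ^ 2)⁻¹)
    have d2 := (c1.differentiable one_ne_zero (‖lg (o, y)‖ ^ 2 / 2 / ρ ^ 2)).hasDerivAt
    have d3 : fderiv ℝ (fun y : V => ψ (‖lg (o, y)‖ ^ 2 / 2 / ρ ^ 2)) y = _ :=
      (d2.comp_hasFDerivAt y d1).fderiv
    rw [d3]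
    simp only [smul_apply, ContinuousLinearMap.comp_apply, ContinuousLinearMap.prod_apply,
      hl.grad, zero_apply, ContinuousLinearMap.id_apply, map_zero, inner_zero_right, Prod.swap,
      smul_eq_mul]
    ring
  have key : ∀ (z ξ η : V × V) (t : ℝ), ‖z.2‖ = 1 → ‖lg (o, z.1)‖ ≤ r → ∃ k A B : ℝ, 0 ≤ k ∧
      eu m (fun y : V => ψ (‖lg (o, y)‖ ^ 2 / 2 / ρ ^ 2)) z ξ η t =
        k * (A * yJ m z ξ η t - B * dJ m z ξ η t) ∧ (k = 0 ∨ ρ - r ≤ |t| ∧ k * |B| ≤ 2 * c * hi ∧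
          (t ≤ 0 → 0 ≤ A ∧ 0 ≤ B) ∧ (0 ≤ t → A ≤ 0 ∧ B ≤ 0)) := by
    intro z ξ η t hz hr
    have wn : ‖(m.Z t z).2‖ = 1 := (hj.norm t z).trans hz
    obtain ⟨q1, q2, q3⟩ := p3 (‖lg (o, (m.Z t z).1)‖ ^ 2 / 2 / ρ ^ 2)
    refine ⟨-deriv ψ (‖lg (o, (m.Z t z).1)‖ ^ 2 / 2 / ρ ^ 2) / ρ ^ 2,
      ⟪lg ((m.Z t z).1, o), (m.Z t z).2⟫, ⟪Gt m (m.Z t z).1 (m.Z t z).2, lg ((m.Z t z).1, o)⟫,
      div_nonneg (neg_nonneg.2 q2) ρ0.le, ?_, ?_⟩
    · rw [eu, dχ, dχ, hm.SR, Gt, smul_apply, real_inner_smul_left, ContinuousLinearMap.comp_apply,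
        real_inner_comm (lg ((m.Z t z).1, o)) (m.S _ _)]
      ring
    by_cases hd : deriv ψ (‖lg (o, (m.Z t z).1)‖ ^ 2 / 2 / ρ ^ 2) = 0
    · exact Or.inl (by rw [hd, neg_zero, zero_div])
    obtain ⟨s1, s2⟩ := q3 hd
    rw [le_div_iff₀ ρ0] at s1
    rw [div_le_iff₀ ρ0] at s2
    have sy := D3WI.lg_symm hj hl o (m.Z t z).1
    have g1 := D3WI.hinge' hl (m.Z t z).1 o z.1
    have g2 := D3WI.lg_geo hm hj hl z t 0
    rw [hm.zero, zero_sub] at g2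
    rw [g2] at g1
    have r0 : 0 ≤ r := (norm_nonneg _).trans hr
    rw [abs_of_nonneg r0] at ρ2
    have ρ3 : r * hi ≤ (ρ - 2 * r) * a ^ 2 := (div_le_iff₀ a2).1 (by linarith)
    have gl := Gt_abs hm hj (sq_nonneg a) up dn (m.Z t z).1 wn (lg ((m.Z t z).1, o))
    have gd := Gt_abs hm hj (sq_nonneg a) up dn (m.Z t z).1 wn
      (lg ((m.Z t z).1, o) - -t • (m.Z t z).2)
    have gw := (Gt_self hm hj up dn (m.Z t z).1 (m.Z t z).2).1
    have ad := abs_real_inner_le_norm (lg ((m.Z t z).1, o) - -t • (m.Z t z).2) (m.Z t z).2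
    have tr := norm_sub_norm_le (lg ((m.Z t z).1, o)) (-t • (m.Z t z).2)
    rw [norm_smul, wn, norm_neg, Real.norm_eq_abs, sy] at tr
    rw [inner_sub_left, real_inner_smul_left, real_inner_self_eq_norm_sq, wn] at ad
    rw [inner_sub_right, real_inner_smul_right] at gd
    rw [wn] at gw
    rw [sy] at gl
    generalize ‖lg (o, (m.Z t z).1)‖ = R at *
    have hd' := g1.trans hr
    have gd' := gd.trans (mul_le_mul_of_nonneg_left hd' h0)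
    have R0 : 0 ≤ R := sy ▸ norm_nonneg _
    have R1 : ρ ≤ R := by nlinarith
    have R2 : R ≤ 2 * ρ := by nlinarith
    have T1 : ρ - r ≤ |t| := by linarith
    have ρ4 : 0 ≤ ρ - 2 * r := by
      have : 0 ≤ r * hi / a ^ 2 := by positivity
      linarith
    refine Or.inr ⟨T1, ?_, fun h => ?_, fun h => ?_⟩
    · rw [div_mul_eq_mul_div, div_le_iff₀ ρ0]
      refine (mul_le_mul (neg_le.1 q1) (gl.trans (mul_le_mul_of_nonneg_left R2 h0))
        (abs_nonneg _) c0).trans ?_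
      nlinarith [mul_nonneg (mul_nonneg c0 h0) (mul_nonneg (zero_le_one.trans ρ1)
        (sub_nonneg.2 ρ1))]
    · rw [abs_of_nonpos h] at T1
      have := mul_le_mul_of_nonneg_left gw (neg_nonneg.2 h)
      exact ⟨by linarith [(abs_le.1 ad).1], by nlinarith [(abs_le.1 gd').1]⟩
    · rw [abs_of_nonneg h] at T1
      have := mul_le_mul_of_nonneg_left gw h
      exact ⟨by linarith [(abs_le.1 ad).2], by nlinarith [(abs_le.1 gd').2]⟩
  refine ⟨_, c1.comp cq, fun y => (p0 _).1, fun y => (p0 _).2, ?_, fun y h => ?_,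
    fun z hz hr t ht => ?_, fun z ξ η ε t hz hr h h' e y0 ht ty => ?_,
    fun z ξ η ε t hz hr h h' e y0 ht ty => ?_⟩
  · have cE : Continuous fun b : V => (m.Z 1 (o, b)).1 :=
      ((D3WI.Z_c1 hm 1).continuous.comp (continuous_const.prodMk continuous_id)).fst
    refine HasCompactSupport.intro ((isCompact_closedBall (0 : V) (2 * ρ)).image cE)
      fun y hy => z2 y (not_lt.1 fun l => hy ⟨lg (o, y), mem_closedBall_zero_iff.2 l.le, hl.ex o y⟩)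
  · filter_upwards [cl.continuous.norm.continuousAt.eventually_lt continuousAt_const h] with x hx
    refine p1 _ ?_
    rw [div_le_iff₀ ρ0]
    nlinarith [norm_nonneg (lg (o, x))]
  · have g := hl.tri z.1 o (m.Z t z).1
    have g2 := D3WI.dist_geo hm hj hl z 0 t
    rw [hm.zero, sub_zero, hz, mul_one] at g2
    rw [g2, D3WI.lg_symm hj hl o z.1] at g
    filter_upwards [continuousAt_const.eventually_lt cl.continuous.norm.continuousAt
      (show 2 * ρ < ‖lg (o, (m.Z t z).1)‖ by linarith)] with x hx using z2 x hx.le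
  · obtain ⟨k, A, B, k0, e1, e2⟩ := key z ξ η t hz hr
    have i0 : 0 ≤ (Iic (r - ρ)).indicator
        (fun t => 2 * c * hi * ((1 + a⁻¹) * Real.exp a * M ^ 2) * Real.exp (a * t)) t :=
      indicator_nonneg (fun _ _ => by positivity) t
    change _ ≤ ε * eu m (fun y : V => ψ (‖lg (o, y)‖ ^ 2 / 2 / ρ ^ 2)) z ξ η t
    rw [e1]
    rcases e2 with rfl | ⟨t1, kb, s, -⟩
    · simpa using i0
    obtain ⟨A0, B0⟩ := s ht
    have u1 := mul_nonneg k0 (mul_nonneg A0 y0)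
    rcases ty with ty | ⟨p, p'⟩
    · nlinarith [mul_nonneg (mul_nonneg k0 B0) (neg_nonneg.2 ty)]
    · rw [abs_of_nonpos ht] at t1
      rw [indicator_of_mem (show t ∈ Iic (r - ρ) from mem_Iic.2 (by linarith))]
      rw [abs_of_nonneg B0] at kb
      have d := dJ_ent hm hj ha up hz h h' ht p p'
      have d' : ε * dJ m z ξ η t ≤ |dJ m z ξ η t| := by
        rw [← one_mul |_|, ← e, ← abs_mul]
        exact le_abs_self _
      nlinarith [mul_le_mul_of_nonneg_left (d'.trans d) (mul_nonneg k0 B0),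
        mul_le_mul_of_nonneg_right kb ((abs_nonneg _).trans d)]
  · obtain ⟨k, A, B, k0, e1, e2⟩ := key z ξ η t hz hr
    have i0 : 0 ≤ (Ici (ρ - r)).indicator
        (fun t => 2 * c * hi * ((1 + a⁻¹) * Real.exp a * M ^ 2) * Real.exp (-(a * t))) t :=
      indicator_nonneg (fun _ _ => by positivity) t
    change ε * eu m (fun y : V => ψ (‖lg (o, y)‖ ^ 2 / 2 / ρ ^ 2)) z ξ η t ≤ _
    rw [e1]
    rcases e2 with rfl | ⟨t1, kb, -, s⟩
    · simpa using i0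
    obtain ⟨A0, B0⟩ := s ht
    have u1 := mul_nonneg k0 (mul_nonneg (neg_nonneg.2 A0) y0)
    rcases ty with ty | ⟨p, p'⟩
    · nlinarith [mul_nonneg (mul_nonneg k0 (neg_nonneg.2 B0)) (neg_nonneg.2 ty)]
    · rw [abs_of_nonneg ht] at t1
      rw [indicator_of_mem (show t ∈ Ici (ρ - r) from t1)]
      rw [abs_of_nonpos B0] at kb
      have d := dJ_exi hm hj ha up hz h h' ht p p'
      have d' : ε * dJ m z ξ η t ≤ |dJ m z ξ η t| := by
        rw [← one_mul |_|, ← e, ← abs_mul]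
        exact le_abs_self _
      nlinarith [mul_le_mul_of_nonneg_left (d'.trans d) (mul_nonneg k0 (neg_nonneg.2 B0)),
        mul_le_mul_of_nonneg_right kb ((abs_nonneg _).trans d)]

end

end Pool.Agent.MP_3ee8cb_gt.D3NB
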