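import Pool.Agent.MP_3ee8cb_gt.D3NB.Ph
import Pool.Agent.MP_3ee8cb_gt.D3GB.All
import Pool.Agent.MP_3ee8cb_gt.D3NP.KSpec

/-! Gauss-Bonnet for the front at every time. -/

namespace Pool.Agent.MP_3ee8cb_gt.D3NB

open Set D3GB D3GB.RP2 Filter Topology MeasureTheory Metric
open Pool.Agent.MP_3ee8cb_gt.D3 (MF sph Wid OnF)
open D3NP (At At2 fx)
open scoped RealInnerProductSpace

noncomputable section

variable {m : MF} {σ : V → V × V}

/-- The pointwise identity for any unit field along any map of the sphere. -/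
theorem pt (hm : m.OK) {Y N : V → V} (hY : Hom0 Y) (hS : Sph N) {v : V} (hv : v ≠ 0) :
    (ext v (N v) (fderiv ℝ N v + ((m.om (Y v)).flip (N v)).comp (fderiv ℝ Y v))).det -
      ev v (fun a b => ⟪N v, aO m (Y v) (fderiv ℝ Y v a) (fderiv ℝ Y v b)⟫) =
    jac N v - ∑ j, br (fun x => ⟪N x, xi m (Y x) (bv j)⟫) (fun x => Y x j) v := by
  obtain ⟨-, dY, zY, -⟩ := rHOM V Y hY
  obtain ⟨-, dN, zN, -⟩ := rHOM V N hS.h0
  have dΞ : DifferentiableAt ℝ (xi m) (Y v) := (xi_fd hm _).differentiableAt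
  have hn : ⟪N v, N v⟫ = 1 := by
    rw [real_inner_self_eq_norm_sq, hS.unit v hv]
    norm_num
  have ho := fd_orth hv (dN v hv) hS.unit
  unfold jac
  rw [rDET v _ _ hv (zN v hv), rDET v _ _ hv (by simp [zY v hv, zN v hv]), Fin.sum_univ_three,
    ← one_mul (ev v fun a b => ⟪N v, _⟫)]
  unfold br
  refine ev_comb v 1 _ _ _ _ _ _ fun a b => ?_
  simp only [add_apply, ContinuousLinearMap.comp_apply, ContinuousLinearMap.flip_apply]
  rw [om_cr hm, om_cr hm, alg _ _ _ _ _ hn (ho a) (ho b), aO_eq hm]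
  simp only [fd_be (dN v hv) dΞ (dY v hv), fd_co (dY v hv), inner_add_right, inner_sub_right]
  rw [inner_sum (fderiv ℝ N v a) (xi m (Y v)) (fderiv ℝ Y v b),
    inner_sum (fderiv ℝ N v b) (xi m (Y v)) (fderiv ℝ Y v a),
    inner_sum (N v) (fderiv ℝ (xi m) (Y v) (fderiv ℝ Y v a)) (fderiv ℝ Y v b),
    inner_sum (N v) (fderiv ℝ (xi m) (Y v) (fderiv ℝ Y v b)) (fderiv ℝ Y v a)]
  ring

/-- The degree of the normal map is at most one in absolute value. -/
theorem deg_le : OnF fun m lg σ T => Wid m lg σ T →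
    |∫ v in ball (0 : V) 1, jac (nn σ) v| ≤ volume.real (ball (0 : V) 1) := by
  intro m lg σ T ok jc up0 had fr good hT wid
  have sg := XG2.hn fr
  obtain ⟨W₁, K, h1, inj, ht⟩ := rHT m lg σ T ok jc up0 had fr good hT wid
  have neW₁' : ∀ p ∈ sphere (0 : V) 1, W₁ p ≠ 0 := fun p hp h0 => by
    obtain ⟨t, -, e⟩ := ht.one p hp
    rw [h0, smul_zero] at e
    exact ht.ne 1 ⟨zero_le_one, le_rfl⟩ p hp e
  have neW₁ : ∀ v, v ≠ 0 → W₁ v ≠ 0 := fun v hv => by
    rw [← h1.hom v ‖v‖⁻¹ (inv_pos.2 (norm_pos_iff.2 hv))]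
    exact neW₁' _ (Asm.unit_mem hv)
  have s1 := Asm.sph_nz h1 neW₁
  have e2 : ∫ v in ball (0 : V) 1, jac (nn σ) v = ∫ v in ball (0 : V) 1, jac (Asm.nz W₁) v := by
    refine sCH _ _ K sg s1 ⟨ht.cont, ht.ne, ht.zero, fun p hp => ?_⟩
    obtain ⟨t, h0, e⟩ := ht.one p hp
    exact ⟨_, mul_pos h0 (norm_pos_iff.2 (neW₁' p hp)), e.trans (Asm.eq_nz (neW₁' p hp) t)⟩
  rw [e2]
  refine rINJ rHOM rJC xCI _ s1 fun p hp q hq e => ?_
  have hq0 : ‖W₁ q‖ ≠ 0 := norm_ne_zero_iff.2 (neW₁' q hq)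
  refine inj p hp q hq (‖W₁ p‖ * ‖W₁ q‖⁻¹)
    (mul_pos (norm_pos_iff.2 (neW₁' p hp)) (inv_pos.2 (norm_pos_iff.2 (neW₁' q hq)))) ?_
  have := Asm.eq_nz (neW₁' p hp) 1
  rw [one_smul, one_mul, e, Asm.nz, smul_smul] at this
  exact this

/-- The front at time `t`, homogeneous of degree zero. -/
def zt (m : MF) (σ : V → V × V) (t : ℝ) (a : V) : V × V := m.Z t (σ (‖a‖⁻¹ • a))

theorem zt_unit {p : V} (hp : ‖p‖ = 1) (t : ℝ) : zt m σ t p = m.Z t (σ p) := by
  rw [zt, hp, inv_one, one_smul]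

theorem zt_hom (hm : m.OK) (hσ : m.Front σ) (t : ℝ) : Hom0 (zt m σ t) := by
  refine ⟨fun a ha => ?_, fun v r hr => ?_⟩
  · have hn : ContDiffAt ℝ 1 (fun x : V => ‖x‖) a := contDiffAt_norm ℝ ha
    have hu : ContDiffAt ℝ 1 (fun x : V => ‖x‖⁻¹ • x) a :=
      (hn.inv (norm_pos_iff.2 ha).ne').smul contDiffAt_id
    have hs : ContDiffAt ℝ 1 σ (‖a‖⁻¹ • a) :=
      hσ.c1.contDiffAt (isOpen_ne.mem_nhds (ne_of_unit (polar ha).1))
    have h1 : ContDiffAt ℝ 1 (fun x : V => σ (‖x‖⁻¹ • x)) a :=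
      ContDiffAt.comp (f := fun x : V => ‖x‖⁻¹ • x) a hs hu
    exact (hm.cZ.contDiffAt.comp a (contDiffAt_const.prodMk h1)).contDiffWithinAt
  · by_cases hv : v = 0
    · rw [hv, smul_zero]
    · have : ‖v‖ ≠ 0 := norm_ne_zero_iff.2 hv
      rw [zt, zt, norm_smul, Real.norm_of_nonneg hr.le, smul_smul]
      congr 3
      field_simp

theorem dzt (hm : m.OK) (hσ : m.Front σ) {p : V} (hp : ‖p‖ = 1) (t : ℝ) (e : V) :
    fderiv ℝ (zt m σ t) p e = fderiv ℝ (m.Z t) (σ p) (fderiv ℝ σ p (e - ⟪p, e⟫ • p)) := by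
  have ha := ne_of_unit hp
  have u : ‖p‖⁻¹ • p = p := by rw [hp, inv_one, one_smul]
  have hn := dnorm' ha
  have h0 := (norm_pos_iff.2 ha).ne'
  have hu := ((hasFDerivAt_inv h0).comp _ hn).fun_smul (hasFDerivAt_id p)
  have hs : HasFDerivAt (fun x => m.Z t (σ x))
      ((fderiv ℝ (m.Z t) (σ p)).comp (fderiv ℝ σ p)) (‖p‖⁻¹ • p) := by
    rw [u]
    exact (dZt hm t _).hasFDerivAt.comp p (dsig hσ ha).hasFDerivAt
  have h3 : fderiv ℝ (zt m σ t) p = _ :=
    (HasFDerivAt.comp (f := fun x : V => ‖x‖⁻¹ • x) _ hs hu).fderiv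
  rw [h3]
  simp [hp, sub_eq_add_neg]

theorem ev_rad {p : V} (hp : ‖p‖ = 1) {r : ℝ} (hr : 0 < r) (x w : V) (B B' : V →L[ℝ] V)
    (h : ∀ e, B' e = r⁻¹ • (B e + ⟪p, e⟫ • w)) :
    ev (r • p) (fun u v => trip x (B' u) (B' v)) = ev p fun u v => trip x (B u) (B v) := by
  simp only [ev, h, in_bv, norm_smul, hp, Real.norm_of_nonneg hr.le, trip, PiLp.add_apply,
    PiLp.smul_apply, smul_eq_mul]
  field_simp
  ring

theorem cAt2 (hm : m.OK) (hσ : m.Front σ) :
    ContinuousOn (fun x : V × ℝ => (At2 m σ x.2 x.1).det) {x | x.1 ≠ 0} := by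
  have c1 : ContinuousOn (fun x : V × ℝ => σ x.1) {x | x.1 ≠ 0} :=
    hσ.c1.continuousOn.comp continuousOn_fst fun _ h => h
  have c2 : ContinuousOn (fun x : V × ℝ => fderiv ℝ σ x.1) {x | x.1 ≠ 0} :=
    (hσ.c1.continuousOn_fderiv_of_isOpen isOpen_ne le_rfl).comp continuousOn_fst fun _ h => h
  have c3 : ContinuousOn (fun x : V × ℝ => m.Z x.2 (σ x.1)) {x | x.1 ≠ 0} :=
    hm.cZ.continuous.comp_continuousOn (continuousOn_snd.prodMk c1)
  have e : ∀ t z, fderiv ℝ (m.Z t) z = (fderiv ℝ (fun q : ℝ × V × V => m.Z q.1 q.2) (t, z)).comp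
      (ContinuousLinearMap.inr ℝ ℝ (V × V)) := fun t z => by
    refine ContinuousLinearMap.ext fun ξ => ?_
    have := dZ2 hm t z 0 ξ
    rw [zero_smul, zero_add] at this
    exact this.symm
  have c4 : ContinuousOn (fun x : V × ℝ => fderiv ℝ (m.Z x.2) (σ x.1)) {x | x.1 ≠ 0} := by
    simp only [e]
    exact ((hm.cZ.continuous_fderiv one_ne_zero).comp_continuousOn
      (continuousOn_snd.prodMk c1)).clm_comp continuousOn_const
  have c5 : Continuous m.ver := continuous_const.add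
    ((((ContinuousLinearMap.flipₗᵢ ℝ V V V).continuous.comp
      (hm.com.continuous.comp continuous_fst)).clm_apply continuous_snd).clm_comp
        continuous_const)
  exact ContinuousLinearMap.continuous_det.comp_continuousOn
    ((c5.comp_continuousOn c3).clm_comp (c4.clm_comp c2))

theorem At2_ne (hm : m.OK) (hj : m.Jac) (hσ : m.Front σ) {T : ℝ} (gd : m.Good σ T) {p : V}
    (hp : ‖p‖ = 1) (t : ℝ) : (At2 m σ t p).det ≠ 0 := fun hd => by
  obtain ⟨e, he, h6⟩ := Submodule.exists_mem_ne_zero_of_ne_bot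
    (LinearMap.det_eq_zero_iff_ker_ne_bot.1 hd)
  have h0 : At2 m σ t p e = 0 := he
  have h1 := At2_perp hm hj hσ hp t e
  rw [h0, inner_zero_right] at h1
  exact h6 (gd.inj p e t hp h1.symm h0)

theorem At2_sign (hm : m.OK) (hj : m.Jac) (hσ : m.Front σ) {T : ℝ} (gd : m.Good σ T) :
    ∃ ε : ℝ, (ε = 1 ∨ ε = -1) ∧ ∀ p t, ‖p‖ = 1 → 0 < ε * (At2 m σ t p).det := by
  have hc : ContinuousOn (fun x : V × ℝ => (At2 m σ x.2 x.1).det) (sphere 0 1 ×ˢ univ) :=
    (cAt2 hm hσ).mono fun x hx => ne_of_unit (by simpa using hx.1)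
  have hp : IsPreconnected (sphere (0 : V) 1 ×ˢ (univ : Set ℝ)) := (isPreconnected_sphere (by
    rw [← Module.finrank_eq_rank]
    simp) _ _).prod isPreconnected_univ
  by_cases hpos : ∀ p t, ‖p‖ = 1 → 0 < (At2 m σ t p).det
  · exact ⟨1, Or.inl rfl, fun p t h => by simpa using hpos p t h⟩
  · push Not at hpos
    obtain ⟨b, s, hb, hb0⟩ := hpos
    refine ⟨-1, Or.inr rfl, fun a t ha => ?_⟩
    by_contra hcon
    obtain ⟨c, hc1, hc2⟩ := hp.intermediate_value (a := (b, s)) (b := (a, t))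
      ⟨by simpa using hb, trivial⟩ ⟨by simpa using ha, trivial⟩ hc
      (show (0 : ℝ) ∈ Icc _ _ from ⟨hb0, by linarith⟩)
    exact At2_ne hm hj hσ gd (by simpa using hc1.1) _ hc2

/-- Gauss-Bonnet at time `t`. -/
theorem gbt : OnF fun m lg σ T => Wid m lg σ T → ∀ t, |sph fun p => (At2 m σ t p).det -
    fx (fun x => (Ph m σ x).1) (fun x => XX m (Ph m σ x).1 (Ph m σ x).2) (Real.exp t • p)| ≤
      sph fun _ => 1 := by
  intro m lg σ T hm hj up0 had hσ good hT wid t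
  have hz := zt_hom hm hσ t
  have hY : Hom0 fun a => (zt m σ t a).1 := ⟨hz.c1.fst, fun v r hr => by rw [hz.hom v r hr]⟩
  have hN : Sph fun a => (zt m σ t a).2 := ⟨⟨hz.c1.snd, fun v r hr => by rw [hz.hom v r hr]⟩,
    fun v hv => w_unit hj hσ (polar hv).1 t⟩
  have hb : ∀ j, Hom0 fun x => ⟪(zt m σ t x).2, xi m (zt m σ t x).1 (bv j)⟫ := fun j =>
    ⟨hz.c1.snd.inner ℝ (((contDiff_const.clm_comp hm.com).comp_contDiffOn hz.c1.fst).clm_apply
      contDiffOn_const), fun v r hr => by rw [hz.hom v r hr]⟩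
  have hy : ∀ j, Hom0 fun x => (zt m σ t x).1 j := fun j =>
    ⟨XG2.co hY.c1 j, fun v r hr => by rw [hz.hom v r hr]⟩
  have cj := rJC.1 _ hN.h0
  have cb := fun j => rJC.2 _ _ (hb j) (hy j)
  have c0 : Con0 fun v => jac (fun a => (zt m σ t a).2) v - ∑ j, br (fun x =>
      ⟪(zt m σ t x).2, xi m (zt m σ t x).1 (bv j)⟫) (fun x => (zt m σ t x).1 j) v :=
    ⟨cj.c0.sub (continuousOn_finsetSum _ fun j _ => (cb j).c0), fun v r hr => by
      rw [cj.hom v r hr, Finset.sum_congr rfl fun j _ => (cb j).hom v r hr]⟩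
  have c1 : Con0 fun _ => (1 : ℝ) := ⟨continuousOn_const, fun _ _ _ => rfl⟩
  have e1 : ∫ v in ball (0 : V) 1, jac (nn σ) v =
      ∫ v in ball (0 : V) 1, jac (fun a => (zt m σ t a).2) v := by
    refine sCH _ _ (fun x => (m.Z (x.1 * t) (σ x.2)).2) (XG2.hn hσ) hN ⟨?_, fun s _ p hp h => ?_,
      fun p hp => ⟨1, one_pos, ?_⟩, fun p hp => ⟨1, one_pos, ?_⟩⟩
    · exact (hm.cZ.continuous.comp_continuousOn ((continuousOn_fst.mul continuousOn_const).prodMk
        (hσ.c1.continuousOn.comp continuousOn_snd fun x hx => Asm.ne_of_mem hx.2))).snd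
    · have := w_unit hj hσ (p := p) (by simpa using hp) (s * t)
      rw [show (m.Z (s * t) (σ p)).2 = 0 from h] at this
      simp at this
    · have h : ‖p‖ = 1 := by simpa using hp
      simp [nn, h, hm.zero]
    · have h : ‖p‖ = 1 := by simpa using hp
      simp [zt_unit h]
  have e4 : (sph fun p => (At2 m σ t p).det - fx (fun x => (Ph m σ x).1)
      (fun x => XX m (Ph m σ x).1 (Ph m σ x).2) (Real.exp t • p)) =
      sph fun v => jac (fun a => (zt m σ t a).2) v - ∑ j, br (fun x =>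
        ⟪(zt m σ t x).2, xi m (zt m σ t x).1 (bv j)⟫) (fun x => (zt m σ t x).1 j) v := by
    refine integral_congr_ae (Eventually.of_forall fun a => ?_)
    have ha : ‖(a : V)‖ = 1 := by simp
    beta_reduce
    generalize (a : V) = p at ha ⊢
    have p0 := ne_of_unit ha
    have d := (hz.c1.contDiffAt (isOpen_ne.mem_nhds p0)).differentiableAt one_ne_zero
    have d1 : fderiv ℝ (fun a => (zt m σ t a).1) p = _ := d.hasFDerivAt.fst.fderiv
    have d2 : fderiv ℝ (fun a => (zt m σ t a).2) p = _ := d.hasFDerivAt.snd.fderiv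
    have r0 := Real.exp_pos t
    rw [← pt hm hY hN p0]
    congr 1
    · congr 1
      ext1 e
      have h1 : At2 m σ t p e = At2 m σ t p (e - ⟪p, e⟫ • p) + ⟪p, e⟫ • (m.Z t (σ p)).2 := by
        rw [map_sub, map_smul, At2_rad hm hj hσ p0, sub_add_cancel]
      rw [h1]
      simp only [D3GB.ext, ha, one_smul, inv_one, add_apply, ContinuousLinearMap.comp_apply, d1, d2,
        dzt hm hσ ha, zt_unit ha, ContinuousLinearMap.smulRight_apply, innerSL_apply_apply]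
      rfl
    · simp only [← XX_trip hm, fx, Ph_exp ha, zt_unit ha]
      refine ev_rad ha r0 _ (m.R (m.Z t (σ p)).1 (m.Z t (σ p)).2) _ _ fun e => ?_
      rw [dPsi hm hσ (smul_ne_zero r0.ne' p0), d1]
      simp only [ContinuousLinearMap.comp_apply, dPh hm hσ ha, dzt hm hσ ha, map_smul, map_add]
      rw [add_comm]
      rfl
  have ij := xCI _ cj
  have ib := fun j => xCI _ (cb j)
  rw [e4, rSPH _ c0, rSPH _ c1, integral_sub ij (integrable_finsetSum _ fun j _ => ib j),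
    integral_finsetSum _ fun j _ => ib j, Finset.sum_eq_zero fun j _ => sBR _ _ (hb j) (hy j),
    sub_zero, ← e1, abs_mul, abs_of_pos three_pos]
  simp only [integral_const, smul_eq_mul, mul_one, MeasurableSet.univ, measureReal_restrict_apply,
    univ_inter]
  linarith [deg_le m lg σ T hm hj up0 had hσ good hT wid]

end

end Pool.Agent.MP_3ee8cb_gt.D3NB
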